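import Pool.Agent.Work.MP_fe875b_lc.W.Alg

/-! # Module AlgI (M): the work function algorithm with injective configurations

As `exists_wfa` in W/Alg.lean (copy the private definitions `pos`, `del`), but the choice `f l r A` is an index `i` with `A i = r` if `r` is in
the range of `A`, and an index of `exists_upd` otherwise. In both cases `upd D (wfR D c₀ l) r A = wfR D c₀ l (update A i r) + D r (A i)` (in the
first case `update A i r = A`, `upd_of_mem`, `D r r = 0`).
Injective: induction on the reversed list: `update A i r = A`, or `r` is not in the range of `A`. The set `F`: `posR_mem`.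
Last property: `∑ j, D (A j) (update A i r j) = D r (A i)`, `wf (σ ++ [r]) A = upd .. A`, `wf (σ ++ [r]) (update A i r) = wf σ (update A i r)` (`upd_of_mem`). -/

set_option autoImplicit false

namespace Pool.Agent.KServer.NU

open Finset

variable {M : Type*} {k : ℕ}

private noncomputable def pos (f : List M → M → (Fin k → M) → Fin k) (c₀ : Fin k → M) :
    List M → Fin k → M
  | [] => c₀
  | (r :: l) => Function.update (pos f c₀ l) (f l r (pos f c₀ l)) r

private noncomputable def del (hk : 0 < k) (f : List M → M → (Fin k → M) → Fin k)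
    (c₀ : Fin k → M) : List M → Fin k
  | [] => ⟨0, hk⟩
  | (r :: l) => f l r (pos f c₀ l)

private theorem posR_del (hk : 0 < k) (f : List M → M → (Fin k → M) → Fin k)
    (c₀ : Fin k → M) (l : List M) : posR (del hk f c₀) c₀ l = pos f c₀ l := by
  induction l with
  | nil => rfl
  | cons r l ih =>
    show Function.update (posR (del hk f c₀) c₀ l) (f l r (pos f c₀ l)) r = _
    rw [ih]
    rfl

private theorem inj_update {A : Fin k → M} (hA : Function.Injective A) {i : Fin k} {r : M}
    (h : (∃ j, A j = r) → A i = r) : Function.Injective (Function.update A i r) := by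
  by_cases hr : ∃ j, A j = r
  · have h1 := h hr
    have h2 : Function.update A i r = A := by
      rw [← h1]
      exact Function.update_eq_self i A
    rw [h2]
    exact hA
  · intro a b hab
    by_cases ha : a = i
    · by_cases hb : b = i
      · rw [ha, hb]
      · rw [ha, Function.update_self, Function.update_of_ne hb] at hab
        exact absurd ⟨b, hab.symm⟩ hr
    · by_cases hb : b = i
      · rw [hb, Function.update_self, Function.update_of_ne ha] at hab
        exact absurd ⟨a, hab⟩ hr
      · rw [Function.update_of_ne ha, Function.update_of_ne hb] at hab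
        exact hA hab

theorem exists_wfa_inj (hk : 0 < k) {D : M → M → ℝ} (hD : Metr D) (c₀ : Fin k → M)
    (hc : Function.Injective c₀) :
    ∃ C : List M → Fin k → M, Online c₀ C ∧ (∀ σ, Function.Injective (C σ)) ∧
      (∀ (F : Set M) (σ : List M), (∀ i, c₀ i ∈ F) → (∀ x ∈ σ, x ∈ F) → ∀ i, C σ i ∈ F) ∧
      ∀ (σ : List M) (r : M), ∑ j, D (C σ j) (C (σ ++ [r]) j) +
        wf D c₀ (σ ++ [r]) (C (σ ++ [r])) ≤ wf D c₀ (σ ++ [r]) (C σ) := by
  have hex : ∀ (l : List M) (r : M) (A : Fin k → M), ∃ i : Fin k,
      upd D (wfR D c₀ l) r A = wfR D c₀ l (Function.update A i r) + D r (A i) ∧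
        ((∃ j, A j = r) → A i = r) := by
    intro l r A
    by_cases h : ∃ j, A j = r
    · obtain ⟨j, hj⟩ := h
      refine ⟨j, ?_, fun _ => hj⟩
      have hq : QWF D (wfR D c₀ l) := by
        have h1 := qwf_wf hk hD c₀ l.reverse
        unfold wf at h1
        rw [List.reverse_reverse] at h1
        exact h1
      rw [upd_of_mem hk hD hq hj, hj, hD.self, add_zero]
      congr 1
      rw [← hj]
      exact (Function.update_eq_self j A).symm
    · obtain ⟨i, hi⟩ := exists_upd hk D (wfR D c₀ l) r A
      exact ⟨i, hi, fun h' => absurd h' h⟩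
  choose f hf hf2 using hex
  have hstep : ∀ (σ : List M) (r : M), lazyC (del hk f c₀) c₀ (σ ++ [r]) =
      Function.update (lazyC (del hk f c₀) c₀ σ)
        (f σ.reverse r (lazyC (del hk f c₀) c₀ σ)) r := by
    intro σ r
    have hpos : pos f c₀ σ.reverse = lazyC (del hk f c₀) c₀ σ := by
      unfold lazyC
      rw [posR_del]
    have hδ : del hk f c₀ (r :: σ.reverse) =
        f σ.reverse r (lazyC (del hk f c₀) c₀ σ) := by
      show f σ.reverse r (pos f c₀ σ.reverse) = _
      rw [hpos]
    rw [lazyC_append, hδ]
  refine ⟨lazyC (del hk f c₀) c₀, online_lazy _ _, ?_, ?_, ?_⟩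
  · intro σ
    induction σ using List.reverseRecOn with
    | nil => exact hc
    | append_singleton σ r ih =>
      rw [hstep]
      exact inj_update ih (hf2 σ.reverse r _)
  · intro F σ h1 h2 i
    exact posR_mem _ h1 _ (fun x hx => h2 x (List.mem_reverse.1 hx)) i
  · intro σ r
    set C := lazyC (del hk f c₀) c₀ with hC
    set A := C σ with hA
    set i := f σ.reverse r A with hi
    have hA' : C (σ ++ [r]) = Function.update A i r := hstep σ r
    have hup : upd D (wf D c₀ σ) r A = wf D c₀ σ (Function.update A i r) + D r (A i) :=
      hf σ.reverse r A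
    have hsum : ∑ j : Fin k, D (A j) (Function.update A i r j) = D r (A i) := by
      rw [Finset.sum_eq_single i]
      · rw [Function.update_self, hD.comm]
      · intro j _ hj
        rw [Function.update_of_ne hj, hD.self]
      · intro h
        exact absurd (Finset.mem_univ i) h
    have hmem : upd D (wf D c₀ σ) r (Function.update A i r) = wf D c₀ σ (Function.update A i r) :=
      upd_of_mem hk hD (qwf_wf hk hD c₀ σ) (i := i) (Function.update_self _ _ _)
    rw [hA', wf_append, hmem, hup, hsum]
    linarith

end Pool.Agent.KServer.NU
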