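import Pool.Agent.Work.MP_fe875b_lc.NU.Tx

/-! # Module U1 (M): adding the last request is free

PROOF of `aa_insert_le`. Let `X` be the set of `exists_aa` for `Z`. If `r ∈ X`: `X` is admissible for `insert r Z`. Otherwise `RSup` gives
`u ∈ X` with `W (X - u + r) + D u r ≤ W X`, `X'' = insert r (X.erase u)`. If `u ∉ Z`: `X''` is admissible (`p ∉ X''` as `p ≠ r`). If `u ∈ Z`: as
`|insert r (Z.erase u)| = |Z| < k` there is `v ∈ X''`, `v ∉ insert r (Z.erase u)`, and `v ≠ u`. `X''' = insert u (X''.erase v)`
contains `insert r Z`, not `p` (`u ∈ Z`, `p ∉ Z`), and `W X''' ≤ W X'' + D v u ≤ W X'' + 1 + ε ≤ W X + ε` (`D u r ≥ 1`).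
PROOF of `aa_r_le`. Let `X₀` be the set of `exists_mu`. If `r ∉ X₀`: `aa_le`. Otherwise take `v ∉ X₀` and `insert v (X₀.erase r)`. -/

set_option autoImplicit false

namespace Pool.Agent.KServer.NU

open Finset

universe u

variable {V : Type u} [DecidableEq V] [Fintype V] {D : V → V → ℝ} {k : ℕ} {W : Finset V → ℝ}

theorem aa_insert_le {ε : ℝ} (hD : Near D ε) (hε : 0 ≤ ε) (hW : FW D k W) {r : V}
    (hr : RSup D k W r) (hV : k + 1 ≤ Fintype.card V) {Z : Finset V} (hrZ : r ∉ Z) {p : V}
    (hpr : p ≠ r) (hp : p ∉ Z) (hZ : Z.card + 1 ≤ k) :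
    aa k W (insert r Z) p ≤ aa k W Z p + ε := by
  obtain ⟨X, hXc, hZX, hpX, hX⟩ := exists_aa (W := W) hV (by omega : Z.card ≤ k) hp
  rw [hX]
  by_cases hrX : r ∈ X
  · have h := aa_le (W := W) hXc (Finset.insert_subset hrX hZX) hpX
    linarith
  obtain ⟨u, huX, hu⟩ := hr X hXc hrX
  have hur : u ≠ r := fun h => hrX (h ▸ huX)
  have hDur := hD.lo u r hur
  have hrX' : r ∉ X.erase u := fun h => hrX (Finset.mem_of_mem_erase h)
  have hc'' : (insert r (X.erase u)).card = k := by
    rw [Finset.card_insert_of_notMem hrX', Finset.card_erase_of_mem huX, hXc]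
    omega
  have hp'' : p ∉ insert r (X.erase u) := by
    rw [Finset.mem_insert]
    rintro (h | h)
    · exact hpr h
    · exact hpX (Finset.mem_of_mem_erase h)
  by_cases huZ : u ∈ Z
  · have hcard : (insert r (Z.erase u)).card < (insert r (X.erase u)).card := by
      have h1 := Finset.card_insert_le r (Z.erase u)
      rw [Finset.card_erase_of_mem huZ] at h1
      have h2 : 0 < Z.card := Finset.card_pos.2 ⟨u, huZ⟩
      rw [hc'']
      omega
    obtain ⟨v, hv, hv'⟩ := Finset.exists_mem_notMem_of_card_lt_card hcard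
    have huX'' : u ∉ insert r (X.erase u) := by
      rw [Finset.mem_insert]
      rintro (h | h)
      · exact hur h
      · exact (Finset.mem_erase.1 h).1 rfl
    have hvu : v ≠ u := fun h => huX'' (h ▸ hv)
    have hlip := hW.lip _ v u hc'' hv huX''
    have hDvu := hD.hi v u hvu
    have hsub : insert r Z ⊆ insert u ((insert r (X.erase u)).erase v) := by
      intro z hz
      rcases Finset.mem_insert.1 hz with rfl | hz
      · refine Finset.mem_insert_of_mem (Finset.mem_erase.2 ⟨?_, Finset.mem_insert_self _ _⟩)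
        rintro rfl
        exact hv' (Finset.mem_insert_self _ _)
      · by_cases hzu : z = u
        · rw [hzu]
          exact Finset.mem_insert_self _ _
        · refine Finset.mem_insert_of_mem (Finset.mem_erase.2 ⟨?_,
            Finset.mem_insert_of_mem (Finset.mem_erase.2 ⟨hzu, hZX hz⟩)⟩)
          rintro rfl
          exact hv' (Finset.mem_insert_of_mem (Finset.mem_erase.2 ⟨hzu, hz⟩))
    have hc3 : (insert u ((insert r (X.erase u)).erase v)).card = k := by
      rw [Finset.card_insert_of_notMem (fun h => huX'' (Finset.mem_of_mem_erase h)),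
        Finset.card_erase_of_mem hv, hc'']
      omega
    have hp3 : p ∉ insert u ((insert r (X.erase u)).erase v) := by
      rw [Finset.mem_insert]
      rintro (h | h)
      · exact hp (h ▸ huZ)
      · exact hp'' (Finset.mem_of_mem_erase h)
    have h := aa_le (W := W) hc3 hsub hp3
    linarith
  · have hsub : insert r Z ⊆ insert r (X.erase u) := by
      refine Finset.insert_subset_insert r ?_
      intro z hz
      exact Finset.mem_erase.2 ⟨fun h => huZ (h ▸ hz), hZX hz⟩
    have h := aa_le (W := W) hc'' hsub hp''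
    linarith

theorem aa_r_le {ε : ℝ} (hD : Near D ε) (hε : 0 ≤ ε) (hW : FW D k W)
    (hV : k + 1 ≤ Fintype.card V) (r : V) : aa k W ∅ r ≤ mu k W + 1 + ε := by
  obtain ⟨X₀, h1, h2⟩ := exists_mu (W := W) hV
  rw [h2]
  by_cases hr : r ∈ X₀
  · have hlt : X₀.card < (Finset.univ : Finset V).card := by
      rw [Finset.card_univ, h1]
      omega
    obtain ⟨v, -, hv⟩ := Finset.exists_mem_notMem_of_card_lt_card hlt
    have hrv : r ≠ v := fun h => hv (h ▸ hr)
    have hlip := hW.lip X₀ r v h1 hr hv
    have hDrv := hD.hi r v hrv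
    have hc : (insert v (X₀.erase r)).card = k := by
      rw [Finset.card_insert_of_notMem (fun h => hv (Finset.mem_of_mem_erase h)),
        Finset.card_erase_of_mem hr, h1]
      have : 0 < X₀.card := Finset.card_pos.2 ⟨r, hr⟩
      omega
    have hr' : r ∉ insert v (X₀.erase r) := by
      rw [Finset.mem_insert]
      rintro (h | h)
      · exact hrv h
      · exact (Finset.mem_erase.1 h).1 rfl
    have h := aa_le (W := W) hc (Finset.empty_subset _) hr'
    linarith
  · have h := aa_le (W := W) h1 (Finset.empty_subset _) hr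
    linarith

end Pool.Agent.KServer.NU
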