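import Pool.Agent.Work.MP_fe875b_lc.NU.Sp
import Pool.Agent.Work.MP_fe875b_lc.NU.U1

/-! # Module Ca (M-L): the candidates

PROOF. (U) for `l` without repetitions, `r ∉ l`, `l.length ≤ k`: `SP aa l {r} ≤ SP aa l ∅ + l.length * ε` (`SP_congr_le`, `aa_insert_le` for
`Z = l₂.toFinset`, `|Z| + 1 ≤ k`). All lists have no repetitions; `PL` of an appended list by `SP_append`. `aa ∅ r ≤ mu + 1 + ε` (`aa_r_le`).
`cand_B`: `PL (l ++ [r]) = W (insert r l) + SP aa l {r} + aa ∅ r`; `W (insert r l) = aa (insert r l) x` (`aa_full`) `≤ aa l x + ε` (`aa_insert_le`), (U);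
`PL (x :: l) = W (x :: l) + aa l x + SP aa l ∅`.
`cand_A`: `PL (l₁ ++ l₂ ++ [r]) = W (insert r (S.erase m)) + SP aa l₁ (insert r l₂) + SP aa l₂ {r} + aa ∅ r`, `S = (l₁ ++ m :: l₂).toFinset`, and
`PL (l₁ ++ m :: l₂) = W S + SP aa l₁ (insert m l₂) + aa l₂ m + SP aa l₂ ∅`; `aa l₂ m ≥ mu` (`mu_le_aa`); (U) for `l₂`. For `y ∈ l₁` with suffix `s` in `l₁`:
`aa (s ∪ insert r l₂) y ≤ aa (insert r (s ∪ insert m l₂)) y ≤ aa (s ∪ insert m l₂) y + ε` (`aa_mono`, `aa_insert_le`); at the
element `x` of the splitting `l₁ = s₁ ++ x :: s₂` use the exact difference (`SP_append` twice). Total `((l₁.length - 1) + l₂.length + 1) ε ≤ k ε`.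
`cand_C`: both sets are equal, the parts of `l₁` are equal; `PL (l₁ ++ r :: l₂)` has `aa l₂ r + SP aa l₂ ∅`, the other one `SP aa l₂ {r} + aa ∅ r`; (U).
`cand_D`: the sets and the parts of `l₁` and `l₃` are equal. The left one has `aa (insert x (Z.erase u)) u + aa (Z.erase u) x + SP aa l₂ l₃`, the right one
`aa Z x + SP aa l₂ (insert u l₃) + aa l₃ u`, `Z = (l₂ ++ u :: l₃).toFinset`; `SP aa l₂ l₃ ≤ SP aa l₂ (insert u l₃)` (`SP_congr_le`, `aa_mono`), `mu ≤ aa l₃ u`. -/

set_option autoImplicit false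

namespace Pool.Agent.KServer.NU

open Finset

universe u

variable {V : Type u} [DecidableEq V] [Fintype V] {D : V → V → ℝ} {k : ℕ} {W : Finset V → ℝ}

private theorem V_gen {ε : ℝ} (hD : Near D ε) (hε : 0 ≤ ε) (hW : FW D k W) {r : V}
    (hr : RSup D k W r) (hV : k + 1 ≤ Fintype.card V) {l : List V} {C C' : Finset V}
    (hnd : l.Nodup) (hrl : r ∉ l) (hrC : r ∉ C') (hC : C ⊆ insert r C')
    (hdis : ∀ x ∈ l, x ∉ C') (hlen : l.length + C'.card ≤ k) :
    SP (aa k W) l C ≤ SP (aa k W) l C' + l.length * ε := by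
  have h := SP_congr_le (f := aa k W) (g := aa k W) (l := l) (C := C) (C' := C')
    (c := fun _ => ε) ?_
  · simpa using h
  · intro l₁ x l₂ hl
    subst hl
    have hx : x ∉ l₂ := by
      rw [List.nodup_append] at hnd
      exact (List.nodup_cons.1 hnd.2.1).1
    have hxr : x ≠ r := by
      rintro rfl
      exact hrl (by simp)
    have hrl₂ : r ∉ l₂ := fun h => hrl (by simp [h])
    have hxC : x ∉ C' := hdis x (by simp)
    have hcard : (l₂.toFinset ∪ C').card + 1 ≤ k := by
      have h1 := Finset.card_union_le l₂.toFinset C'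
      have h2 := List.toFinset_card_le l₂
      simp only [List.length_append, List.length_cons] at hlen
      omega
    have hrZ : r ∉ l₂.toFinset ∪ C' := by
      simp [hrl₂, hrC]
    have hxZ : x ∉ l₂.toFinset ∪ C' := by
      simp [hx, hxC]
    refine le_trans (aa_mono (Z' := insert r (l₂.toFinset ∪ C')) hV ?_ ?_ ?_)
      (aa_insert_le hD hε hW hr hV hrZ hxr hxZ hcard)
    · intro y hy
      rcases Finset.mem_union.1 hy with hy | hy
      · simp [List.mem_toFinset.1 hy]
      · rcases Finset.mem_insert.1 (hC hy) with hy | hy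
        · simp [hy]
        · simp [hy]
    · rw [Finset.card_insert_of_notMem hrZ]
      exact hcard
    · simp only [Finset.mem_insert, not_or]
      exact ⟨hxr, hxZ⟩

omit [Fintype V] in
private theorem SP_last (f : Finset V → V → ℝ) (l : List V) (r : V) :
    SP f (l ++ [r]) ∅ = SP f l {r} + f ∅ r := by
  rw [SP_append]
  simp [SP]

private theorem U_r {ε : ℝ} (hD : Near D ε) (hε : 0 ≤ ε) (hW : FW D k W) {r : V}
    (hr : RSup D k W r) (hV : k + 1 ≤ Fintype.card V) {l : List V}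
    (hnd : l.Nodup) (hrl : r ∉ l) (hlen : l.length ≤ k) :
    SP (aa k W) l {r} ≤ SP (aa k W) l ∅ + l.length * ε :=
  V_gen hD hε hW hr hV hnd hrl (by simp) (by simp) (by simp) (by simpa using hlen)

theorem cand_B {ε : ℝ} (hD : Near D ε) (hε : 0 ≤ ε) (hW : FW D k W) {r : V}
    (hr : RSup D k W r) (hV : k + 1 ≤ Fintype.card V) {x : V} {l : List V} (hl : OK k (x :: l))
    (hrl : r ∉ x :: l) :
    PL k W (l ++ [r]) ≤
      PL k W (x :: l) - (W (x :: l).toFinset - mu k W - 1) + (k + 1) * ε := by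
  obtain ⟨hnd, hlen⟩ := hl
  have hxl : x ∉ l := (List.nodup_cons.1 hnd).1
  have hndl : l.Nodup := (List.nodup_cons.1 hnd).2
  have hxr : x ≠ r := fun h => hrl (by simp [h])
  have hrl' : r ∉ l := fun h => hrl (by simp [h])
  simp only [List.length_cons] at hlen
  have hcl : l.toFinset.card = l.length := List.toFinset_card_of_nodup hndl
  have h1 : (l ++ [r]).toFinset = insert r l.toFinset := by
    ext y
    simp
  have h2 : W (insert r l.toFinset) = aa k W (insert r l.toFinset) x := by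
    rw [aa_full]
    · rw [Finset.card_insert_of_notMem (by simpa using hrl'), hcl]
      exact hlen
    · simp [hxr, hxl]
  have h3 : aa k W (insert r l.toFinset) x ≤ aa k W l.toFinset x + ε :=
    aa_insert_le hD hε hW hr hV (by simpa using hrl') hxr (by simpa using hxl)
      (by rw [hcl]; omega)
  have h4 := U_r hD hε hW hr hV hndl hrl' (by omega)
  have h5 := aa_r_le hD hε hW hV r
  have h6 : PL k W (l ++ [r]) = W (insert r l.toFinset) + (SP (aa k W) l {r} + aa k W ∅ r) := by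
    rw [PL, SP_last, h1]
  have h7 : PL k W (x :: l) = W (x :: l).toFinset + (aa k W l.toFinset x + SP (aa k W) l ∅) := by
    rw [PL, SP, Finset.union_empty]
  have h8 : (k : ℝ) = l.length + 1 := by
    rw [← hlen]
    push_cast
    ring
  rw [h6, h7, h2, h8]
  nlinarith

theorem cand_A {ε : ℝ} (hD : Near D ε) (hε : 0 ≤ ε) (hW : FW D k W) {r : V}
    (hr : RSup D k W r) (hV : k + 1 ≤ Fintype.card V) {m : V} {l₁ l₂ : List V}
    (hl : OK k (l₁ ++ m :: l₂)) (hrl : r ∉ l₁ ++ m :: l₂)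
    (hm : W (insert r ((l₁ ++ m :: l₂).toFinset.erase m)) + 1 ≤ W (l₁ ++ m :: l₂).toFinset)
    {s₁ s₂ : List V} {x : V} (hs : l₁ = s₁ ++ x :: s₂) :
    PL k W (l₁ ++ l₂ ++ [r]) ≤ PL k W (l₁ ++ m :: l₂) -
      (aa k W (s₂ ++ m :: l₂).toFinset x -
        aa k W (insert r ((s₂ ++ m :: l₂).toFinset.erase m)) x) + k * ε := by
  obtain ⟨hnd, hlen⟩ := hl
  subst hs
  have hnd' := hnd
  simp only [List.append_assoc, List.cons_append, List.nodup_append, List.nodup_cons,
    List.mem_append, List.mem_cons, not_or] at hnd'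
  simp only [List.append_assoc, List.cons_append, List.mem_append, List.mem_cons, not_or] at hrl
  simp only [List.append_assoc, List.cons_append, List.length_append, List.length_cons] at hlen
  obtain ⟨hns₁, ⟨⟨hxs₂, hxm, hxl₂⟩, hns₂, ⟨hml₂, hnl₂⟩, hd2⟩, hd1⟩ := hnd'
  obtain ⟨hrs₁, hrx, hrs₂, hrm, hrl₂⟩ := hrl
  have hms₂ : m ∉ s₂ := fun h => hd2 m h m (Or.inl rfl) rfl
  have hms₁ : m ∉ s₁ := fun h => hd1 m h m (Or.inr (Or.inr (Or.inl rfl))) rfl
  have hc2 : l₂.toFinset.card = l₂.length := List.toFinset_card_of_nodup hnl₂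
  have hcs : s₂.toFinset.card = s₂.length := List.toFinset_card_of_nodup hns₂
  have e1 : ((s₁ ++ x :: s₂) ++ l₂ ++ [r]).toFinset =
      insert r (((s₁ ++ x :: s₂) ++ m :: l₂).toFinset.erase m) := by
    ext y
    simp only [List.mem_toFinset, List.mem_append, List.mem_cons, List.not_mem_nil, or_false,
      Finset.mem_insert, Finset.mem_erase]
    constructor
    · intro h'
      rcases h' with (((h | h | h) | h) | h)
      · exact Or.inr ⟨fun e => hms₁ (e ▸ h), Or.inl (Or.inl h)⟩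
      · exact Or.inr ⟨fun e => hxm (h ▸ e), Or.inl (Or.inr (Or.inl h))⟩
      · exact Or.inr ⟨fun e => hms₂ (e ▸ h), Or.inl (Or.inr (Or.inr h))⟩
      · exact Or.inr ⟨fun e => hml₂ (e ▸ h), Or.inr (Or.inr h)⟩
      · exact Or.inl h
    · intro h'
      rcases h' with (h | ⟨h0, ((h | h | h) | (h | h))⟩)
      · exact Or.inr h
      · exact Or.inl (Or.inl (Or.inl h))
      · exact Or.inl (Or.inl (Or.inr (Or.inl h)))
      · exact Or.inl (Or.inl (Or.inr (Or.inr h)))
      · exact absurd h h0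
      · exact Or.inl (Or.inr h)
  have e2 : insert r ((s₂ ++ m :: l₂).toFinset.erase m) = s₂.toFinset ∪ (l₂.toFinset ∪ {r}) := by
    ext y
    simp only [List.mem_toFinset, List.mem_append, List.mem_cons, Finset.mem_singleton,
      Finset.mem_insert, Finset.mem_erase, Finset.mem_union]
    constructor
    · rintro (h | ⟨h0, h | h | h⟩)
      · exact Or.inr (Or.inr h)
      · exact Or.inl h
      · exact absurd h h0
      · exact Or.inr (Or.inl h)
    · rintro (h | h | h)
      · exact Or.inr ⟨fun e => hms₂ (e ▸ h), Or.inl h⟩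
      · exact Or.inr ⟨fun e => hml₂ (e ▸ h), Or.inr (Or.inr h)⟩
      · exact Or.inl h
  have h6 : PL k W ((s₁ ++ x :: s₂) ++ l₂ ++ [r]) =
      W (insert r (((s₁ ++ x :: s₂) ++ m :: l₂).toFinset.erase m)) +
        ((SP (aa k W) s₁ ((x :: s₂).toFinset ∪ (l₂.toFinset ∪ {r})) +
          (aa k W (s₂.toFinset ∪ (l₂.toFinset ∪ {r})) x +
            SP (aa k W) s₂ (l₂.toFinset ∪ {r}))) + SP (aa k W) l₂ {r} + aa k W ∅ r) := by
    rw [PL, SP_last, e1, SP_append, SP_append, SP]
  have h7 : PL k W ((s₁ ++ x :: s₂) ++ m :: l₂) = W ((s₁ ++ x :: s₂) ++ m :: l₂).toFinset +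
      ((SP (aa k W) s₁ ((x :: s₂).toFinset ∪ (m :: l₂).toFinset) +
          (aa k W (s₂ ++ m :: l₂).toFinset x +
            SP (aa k W) s₂ (m :: l₂).toFinset)) + (aa k W l₂.toFinset m + SP (aa k W) l₂ ∅)) := by
    rw [PL, SP_append, SP_append, SP, SP, List.toFinset_append (l := s₂)]
    simp only [Finset.union_empty]
  have h1 := aa_r_le hD hε hW hV r
  have h2 : mu k W ≤ aa k W l₂.toFinset m := mu_le_aa hV (by omega) (by simpa using hml₂)
  have h3 := U_r hD hε hW hr hV hnl₂ hrl₂ (by omega)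
  have hcm : (m :: l₂).toFinset.card ≤ l₂.length + 1 := by
    simpa using List.toFinset_card_le (m :: l₂)
  have h4 : SP (aa k W) s₂ (l₂.toFinset ∪ {r}) ≤
      SP (aa k W) s₂ (m :: l₂).toFinset + s₂.length * ε := by
    refine V_gen hD hε hW hr hV hns₂ hrs₂ ?_ ?_ ?_ ?_
    · simp [hrm, hrl₂]
    · intro y hy
      simp only [Finset.mem_union, List.mem_toFinset, Finset.mem_singleton] at hy
      simp only [Finset.mem_insert, List.mem_toFinset, List.mem_cons]
      tauto
    · intro y hy h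
      simp only [List.mem_toFinset, List.mem_cons] at h
      exact hd2 y hy y h rfl
    · omega
  have h5 : SP (aa k W) s₁ ((x :: s₂).toFinset ∪ (l₂.toFinset ∪ {r})) ≤
      SP (aa k W) s₁ ((x :: s₂).toFinset ∪ (m :: l₂).toFinset) + s₁.length * ε := by
    refine V_gen hD hε hW hr hV hns₁ hrs₁ ?_ ?_ ?_ ?_
    · simp [hrm, hrl₂, hrx, hrs₂]
    · intro y hy
      simp only [Finset.mem_union, List.mem_toFinset, Finset.mem_singleton, List.mem_cons] at hy
      simp only [Finset.mem_insert, List.mem_toFinset, List.mem_cons, Finset.mem_union]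
      tauto
    · intro y hy h
      simp only [List.mem_toFinset, List.mem_cons, Finset.mem_union] at h
      exact hd1 y hy y (by tauto) rfl
    · have := Finset.card_union_le (x :: s₂).toFinset (m :: l₂).toFinset
      have h9 : (x :: s₂).toFinset.card ≤ s₂.length + 1 := by
        simpa using List.toFinset_card_le (x :: s₂)
      omega
  have h8 : (k : ℝ) = s₁.length + s₂.length + l₂.length + 2 := by
    rw [← hlen]
    push_cast
    ring
  rw [h6, h7, e2, h8]
  have hm' := hm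
  nlinarith

theorem cand_C {ε : ℝ} (hD : Near D ε) (hε : 0 ≤ ε) (hW : FW D k W) {r : V}
    (hr : RSup D k W r) (hV : k + 1 ≤ Fintype.card V) {l₁ l₂ : List V}
    (hl : OK k (l₁ ++ r :: l₂)) :
    PL k W (l₁ ++ l₂ ++ [r]) ≤
      PL k W (l₁ ++ r :: l₂) - (aa k W l₂.toFinset r - mu k W - 1) + k * ε := by
  obtain ⟨hnd, hlen⟩ := hl
  have hnd' := hnd
  simp only [List.nodup_append, List.nodup_cons] at hnd'
  simp only [List.length_append, List.length_cons] at hlen
  obtain ⟨hn₁, ⟨hrl₂, hn₂⟩, hd⟩ := hnd'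
  have e1 : (l₁ ++ l₂ ++ [r]).toFinset = (l₁ ++ r :: l₂).toFinset := by
    ext y
    simp only [List.mem_toFinset, List.mem_append, List.mem_cons, List.not_mem_nil, or_false]
    tauto
  have e2 : l₂.toFinset ∪ {r} = (r :: l₂).toFinset ∪ ∅ := by
    ext y
    simp only [List.mem_toFinset, List.mem_cons, Finset.mem_union, Finset.mem_singleton,
      Finset.notMem_empty, or_false]
    tauto
  have h6 : PL k W (l₁ ++ l₂ ++ [r]) = W (l₁ ++ r :: l₂).toFinset +
      (SP (aa k W) l₁ ((r :: l₂).toFinset ∪ ∅) + SP (aa k W) l₂ {r} + aa k W ∅ r) := by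
    rw [PL, SP_last, e1, SP_append, e2]
  have h7 : PL k W (l₁ ++ r :: l₂) = W (l₁ ++ r :: l₂).toFinset +
      (SP (aa k W) l₁ ((r :: l₂).toFinset ∪ ∅) + (aa k W l₂.toFinset r + SP (aa k W) l₂ ∅)) := by
    rw [PL, SP_append, SP, Finset.union_empty l₂.toFinset]
  have h3 := U_r hD hε hW hr hV hn₂ hrl₂ (by omega)
  have h1 := aa_r_le hD hε hW hV r
  have h8 : (k : ℝ) = l₁.length + l₂.length + 1 := by
    rw [← hlen]
    push_cast
    ring
  have h9 : (0 : ℝ) ≤ l₁.length * ε := mul_nonneg (Nat.cast_nonneg _) hε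
  rw [h6, h7, h8]
  nlinarith

theorem cand_D (hV : k + 1 ≤ Fintype.card V) {x u : V} {l₁ l₂ l₃ : List V}
    (hl : OK k (l₁ ++ x :: (l₂ ++ u :: l₃))) :
    PL k W (l₁ ++ u :: x :: (l₂ ++ l₃)) ≤ PL k W (l₁ ++ x :: (l₂ ++ u :: l₃)) -
      (aa k W (l₂ ++ u :: l₃).toFinset x - aa k W ((l₂ ++ u :: l₃).toFinset.erase u) x +
        mu k W - aa k W (insert x ((l₂ ++ u :: l₃).toFinset.erase u)) u) := by
  obtain ⟨hnd, hlen⟩ := hl
  have hnd' := hnd
  simp only [List.nodup_append, List.nodup_cons, List.mem_append, List.mem_cons, not_or] at hnd'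
  simp only [List.length_append, List.length_cons] at hlen
  obtain ⟨hn₁, ⟨⟨hxl₂, hxu, hxl₃⟩, hn₂, ⟨hul₃, hn₃⟩, hd2⟩, hd1⟩ := hnd'
  have hul₂ : u ∉ l₂ := fun h => hd2 u h u (Or.inl rfl) rfl
  have e0 : (l₂ ++ u :: l₃).toFinset.erase u = (l₂ ++ l₃).toFinset := by
    ext y
    simp only [List.mem_toFinset, List.mem_append, List.mem_cons, Finset.mem_erase]
    constructor
    · rintro ⟨h0, h | h | h⟩
      · exact Or.inl h
      · exact absurd h h0
      · exact Or.inr h
    · rintro (h | h)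
      · exact ⟨fun e => hul₂ (e ▸ h), Or.inl h⟩
      · exact ⟨fun e => hul₃ (e ▸ h), Or.inr (Or.inr h)⟩
  have e1 : (u :: x :: (l₂ ++ l₃)).toFinset = (x :: (l₂ ++ u :: l₃)).toFinset := by
    ext y
    simp only [List.mem_toFinset, List.mem_append, List.mem_cons]
    tauto
  have e2 : (l₁ ++ u :: x :: (l₂ ++ l₃)).toFinset = (l₁ ++ x :: (l₂ ++ u :: l₃)).toFinset := by
    ext y
    simp only [List.mem_toFinset, List.mem_append, List.mem_cons]
    tauto
  have h6 : PL k W (l₁ ++ u :: x :: (l₂ ++ l₃)) = W (l₁ ++ x :: (l₂ ++ u :: l₃)).toFinset +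
      (SP (aa k W) l₁ ((x :: (l₂ ++ u :: l₃)).toFinset ∪ ∅) +
        (aa k W (insert x ((l₂ ++ l₃).toFinset)) u + (aa k W (l₂ ++ l₃).toFinset x +
          (SP (aa k W) l₂ (l₃.toFinset ∪ ∅) + SP (aa k W) l₃ ∅)))) := by
    rw [PL, SP_append, SP, SP, SP_append, e1, e2, List.toFinset_cons (a := x) (l := l₂ ++ l₃)]
    simp only [Finset.union_empty]
  have h7 : PL k W (l₁ ++ x :: (l₂ ++ u :: l₃)) = W (l₁ ++ x :: (l₂ ++ u :: l₃)).toFinset +
      (SP (aa k W) l₁ ((x :: (l₂ ++ u :: l₃)).toFinset ∪ ∅) +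
        (aa k W (l₂ ++ u :: l₃).toFinset x +
          (SP (aa k W) l₂ ((u :: l₃).toFinset ∪ ∅) +
            (aa k W l₃.toFinset u + SP (aa k W) l₃ ∅)))) := by
    rw [PL, SP_append, SP, SP_append, SP]
    simp only [Finset.union_empty]
  have h1 : mu k W ≤ aa k W l₃.toFinset u := by
    refine mu_le_aa hV ?_ (by simpa using hul₃)
    have := List.toFinset_card_le l₃
    omega
  have h2 : SP (aa k W) l₂ (l₃.toFinset ∪ ∅) ≤ SP (aa k W) l₂ ((u :: l₃).toFinset ∪ ∅) := by
    have h := SP_congr_le (f := aa k W) (g := aa k W) (l := l₂) (C := l₃.toFinset ∪ ∅)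
      (C' := (u :: l₃).toFinset ∪ ∅) (c := fun _ => 0) ?_
    · simpa using h
    · intro t₁ y t₂ ht
      rw [add_zero]
      subst ht
      refine aa_mono hV ?_ ?_ ?_
      · intro z hz
        simp only [Finset.mem_union, List.mem_toFinset, Finset.notMem_empty, or_false] at hz
        simp only [Finset.mem_union, List.mem_toFinset, List.mem_cons, Finset.notMem_empty,
          or_false]
        tauto
      · rw [Finset.union_empty]
        have h3 := Finset.card_union_le t₂.toFinset (u :: l₃).toFinset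
        have h4 := List.toFinset_card_le t₂
        have h5 := List.toFinset_card_le (u :: l₃)
        simp only [List.length_append, List.length_cons] at hlen h5
        omega
      · simp only [Finset.mem_union, List.mem_toFinset, List.mem_cons, Finset.notMem_empty,
          or_false, not_or]
        have hy : y ∈ t₁ ++ y :: t₂ := by simp
        refine ⟨?_, fun h => hd2 y hy u (Or.inl rfl) h, fun h => hd2 y hy y (Or.inr h) rfl⟩
        rw [List.nodup_append] at hn₂
        exact (List.nodup_cons.1 hn₂.2.1).1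
  rw [h6, h7, e0]
  linarith

end Pool.Agent.KServer.NU
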