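import Pool.Agent.Work.MP_fe875b_lc.W.Alg
import Pool.Agent.Work.MP_fe875b_lc.W.Dual

/-! # k servers on near-uniform metric spaces: definitions (fixed, no proof needed)

`W : Finset V → ℝ` is a work function on the sets with `k` elements (values at other sets are not used).
`l` is a list of `k` different points `x_1, …, x_k`; the suffix after `x_i` is the set `Z_i`. -/

set_option autoImplicit false

namespace Pool.Agent.KServer.NU

open Finset

universe u

variable {V : Type u} [DecidableEq V]

/-- work functions on the sets with `k` elements: Lipschitz in one step, and the exchange property -/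
structure FW (D : V → V → ℝ) (k : ℕ) (W : Finset V → ℝ) : Prop where
  lip : ∀ (X : Finset V) (x y : V), X.card = k → x ∈ X → y ∉ X →
    W (insert y (X.erase x)) ≤ W X + D x y
  exch : ∀ (X Y : Finset V) (x : V), X.card = k → Y.card = k → x ∈ X → x ∉ Y →
    ∃ v ∈ Y, v ∉ X ∧ W (insert v (X.erase x)) + W (insert x (Y.erase v)) ≤ W X + W Y

/-- `W` is supported by the sets which contain `r` -/
def RSup (D : V → V → ℝ) (k : ℕ) (W : Finset V → ℝ) (r : V) : Prop :=
  ∀ X : Finset V, X.card = k → r ∉ X → ∃ x ∈ X, W (insert r (X.erase x)) + D x r ≤ W X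

/-- `W'` is the update of `W` by the request `r` -/
structure IsUpd (D : V → V → ℝ) (k : ℕ) (W W' : Finset V → ℝ) (r : V) : Prop where
  mem : ∀ X : Finset V, X.card = k → r ∈ X → W' X = W X
  ex : ∀ X : Finset V, X.card = k → r ∉ X → ∃ x ∈ X, W' X = W (insert r (X.erase x)) + D x r
  le : ∀ (X : Finset V) (x : V), X.card = k → r ∉ X → x ∈ X →
    W' X ≤ W (insert r (X.erase x)) + D x r

/-- distances between different points are in `[1, 1 + ε]` -/
structure Near (D : V → V → ℝ) (ε : ℝ) : Prop where
  metr : Metr D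
  lo : ∀ x y, x ≠ y → 1 ≤ D x y
  hi : ∀ x y, x ≠ y → D x y ≤ 1 + ε

/-- the value of `W` at the configuration `Z` and `k - |Z|` antipodes of `p` -/
noncomputable def TT (D : V → V → ℝ) (k : ℕ) (W : Finset V → ℝ) (Z : Finset V) (p : V) : ℝ :=
  ⨅ Y : {Y : Finset V // Y.card + Z.card = k ∧ Disjoint Y Z}, (W (Y.1 ∪ Z) - ∑ y ∈ Y.1, D y p)

/-- the minimum of `W` over the sets which contain `Z` and not `p` -/
noncomputable def aa (k : ℕ) (W : Finset V → ℝ) (Z : Finset V) (p : V) : ℝ :=
  ⨅ X : {X : Finset V // X.card = k ∧ Z ⊆ X ∧ p ∉ X}, W X.1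

/-- the minimum of `W` -/
noncomputable def mu (k : ℕ) (W : Finset V → ℝ) : ℝ := ⨅ X : {X : Finset V // X.card = k}, W X.1

/-- the sum of `f Z_i x_i` over the elements of a list, followed by the set `C` -/
def SP (f : Finset V → V → ℝ) : List V → Finset V → ℝ
  | [], _ => 0
  | (x :: l), C => f (l.toFinset ∪ C) x + SP f l C

/-- the potential of a list -/
noncomputable def PhiL (D : V → V → ℝ) (k : ℕ) (W : Finset V → ℝ) (l : List V) : ℝ :=
  W l.toFinset + SP (TT D k W) l ∅

/-- its uniform limit -/
noncomputable def PL (k : ℕ) (W : Finset V → ℝ) (l : List V) : ℝ :=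
  W l.toFinset + SP (aa k W) l ∅

/-- lists of `k` different points -/
def OK (k : ℕ) (l : List V) : Prop := l.Nodup ∧ l.length = k

/-- first option at all positions of the list `l` followed by the set `C` -/
def FOall (D : V → V → ℝ) (k : ℕ) (W : Finset V → ℝ) (r : V) (l : List V) : Prop :=
  ∀ (l₁ : List V) (x : V) (l₂ : List V), l = l₁ ++ x :: l₂ →
    TT D k W (insert r l₂.toFinset) x - D x r ≤ TT D k W l₂.toFinset x

/-- a function on tuples as a function on sets -/
noncomputable def sw {k : ℕ} (w : (Fin k → V) → ℝ) (X : Finset V) : ℝ :=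
  if h : X.card = k then w (fun i => ((X.equivFinOfCardEq h).symm i).1) else 0

end Pool.Agent.KServer.NU
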