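import Pool.Agent.Work.MP_fe875b_lc.NU.Sp

/-! # Module Ex (M): the exact comparisons

PROOF. (E) `FOall r l` gives `SP TT l {r} - ∑_{x ∈ l} D x r ≤ SP TT l ∅` (`SP_congr_le` with `f = TT`, `C = {r}`, `C' = ∅`, `c x = D x r`;
`l₂.toFinset ∪ {r} = insert r l₂.toFinset`).
`exact_beta`: by `SP_append` (all lists without repetitions): `PhiL (l₁ ++ r :: l₂) = W S + SP TT l₁ (insert r l₂) + TT l₂ r + SP TT l₂ ∅` and
`PhiL (l₁ ++ l₂ ++ [r]) = W S + SP TT l₁ (insert r l₂) + SP TT l₂ {r} + TT ∅ r` with the same set `S`. (E) and `TT ∅ r ≤ TT l₂ r - ∑_{x ∈ l₂} D x r`: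
`Y` of `exists_TT` for `TT l₂ r`, `TT_le` with `Y ∪ l₂` (and `Z = ∅`), `∑_{Y ∪ l₂} = ∑_Y + ∑_{l₂}` (disjoint).
`exact_alpha`: `PhiL (x :: l) = W (x :: l) + SP TT (x :: l) ∅ ≥ W (x :: l) - ∑_{y ∈ x :: l} D y r + SP TT (x :: l) {r}` by (E);
`SP TT (x :: l) {r} = TT (insert r l) x + SP TT l {r} = W (insert r l) + SP TT l {r}` (`TT_full`); `TT ∅ r ≤ W (x :: l) - ∑_{y ∈ x :: l} D y r` (`TT_le`
with `Y = (x :: l).toFinset`, `Z = ∅`); and `PhiL (l ++ [r]) = W (insert r l) + SP TT l {r} + TT ∅ r`. -/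

set_option autoImplicit false

namespace Pool.Agent.KServer.NU

open Finset

universe u

variable {V : Type u} [DecidableEq V] [Fintype V] {D : V → V → ℝ} {k : ℕ} {W : Finset V → ℝ}

private theorem ex_E {r : V} {l : List V} (h : FOall D k W r l) :
    SP (TT D k W) l {r} ≤ SP (TT D k W) l ∅ + (l.map (fun x => D x r)).sum := by
  refine SP_congr_le (fun l₁ x l₂ hl => ?_)
  have h1 := h l₁ x l₂ hl
  have e1 : l₂.toFinset ∪ {r} = insert r l₂.toFinset := by
    rw [Finset.union_comm]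
    rfl
  rw [e1, Finset.union_empty]
  linarith

private theorem ex_one (f : Finset V → V → ℝ) (r : V) : SP f [r] ∅ = f ∅ r := by
  show f (([] : List V).toFinset ∪ ∅) r + 0 = f ∅ r
  rw [List.toFinset_nil, Finset.union_empty, add_zero]

theorem exact_alpha {r x : V} {l : List V} (hl : OK k (x :: l)) (hr : r ∉ x :: l)
    (h : FOall D k W r (x :: l)) : PhiL D k W (l ++ [r]) ≤ PhiL D k W (x :: l) := by
  obtain ⟨hnd, hlen⟩ := hl
  have hrl : r ∉ l := fun hh => hr (List.mem_cons_of_mem _ hh)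
  have hnl : l.Nodup := (List.nodup_cons.1 hnd).2
  have hlen' : l.length + 1 = k := hlen
  have eC : ([r] : List V).toFinset ∪ ∅ = {r} := by
    simp
  have eS : (l ++ [r]).toFinset = insert r l.toFinset := by
    ext y
    simp [or_comm]
  have eU : l.toFinset ∪ {r} = insert r l.toFinset := by
    ext y
    simp [or_comm]
  have h1 : PhiL D k W (l ++ [r]) =
      W (insert r l.toFinset) + (SP (TT D k W) l {r} + TT D k W ∅ r) := by
    unfold PhiL
    rw [SP_append, eC, ex_one, eS]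
  have h2 : SP (TT D k W) (x :: l) {r} = W (insert r l.toFinset) + SP (TT D k W) l {r} := by
    show TT D k W (l.toFinset ∪ {r}) x + SP (TT D k W) l {r} = _
    rw [eU, TT_full]
    rw [Finset.card_insert_of_notMem (by rwa [List.mem_toFinset]),
      List.toFinset_card_of_nodup hnl, hlen']
  have h3 := ex_E h
  have h4 : TT D k W ∅ r ≤ W ((x :: l).toFinset ∪ ∅) - ∑ y ∈ (x :: l).toFinset, D y r := by
    refine TT_le r ?_ (Finset.disjoint_empty_right _)
    rw [Finset.card_empty, add_zero, List.toFinset_card_of_nodup hnd, hlen]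
  rw [Finset.union_empty, List.sum_toFinset _ hnd] at h4
  rw [h1]
  unfold PhiL
  rw [h2] at h3
  linarith

theorem exact_beta (hV : k + 1 ≤ Fintype.card V) {r : V} {l₁ l₂ : List V}
    (hl : OK k (l₁ ++ r :: l₂)) (h : FOall D k W r l₂) :
    PhiL D k W (l₁ ++ l₂ ++ [r]) ≤ PhiL D k W (l₁ ++ r :: l₂) := by
  obtain ⟨hnd, hlen⟩ := hl
  have hnr : (r :: l₂).Nodup := (List.nodup_append.1 hnd).2.1
  have hn2 : l₂.Nodup := (List.nodup_cons.1 hnr).2
  have hl2 : l₂.length ≤ k := by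
    rw [← hlen, List.length_append, List.length_cons]
    omega
  have eC : ([r] : List V).toFinset ∪ ∅ = {r} := by
    simp
  have eS : (l₁ ++ l₂ ++ [r]).toFinset = (l₁ ++ r :: l₂).toFinset := by
    ext y
    simp only [List.mem_toFinset, List.mem_append, List.mem_cons, List.not_mem_nil, or_false]
    tauto
  have eU : l₂.toFinset ∪ {r} = (r :: l₂).toFinset ∪ ∅ := by
    ext y
    simp [or_comm]
  have h1 : PhiL D k W (l₁ ++ l₂ ++ [r]) = W (l₁ ++ r :: l₂).toFinset +
      (SP (TT D k W) l₁ ((r :: l₂).toFinset ∪ ∅) + SP (TT D k W) l₂ {r} + TT D k W ∅ r) := by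
    unfold PhiL
    rw [SP_append, eC, ex_one, eS, SP_append, eU]
  have h2 : PhiL D k W (l₁ ++ r :: l₂) = W (l₁ ++ r :: l₂).toFinset +
      (SP (TT D k W) l₁ ((r :: l₂).toFinset ∪ ∅) +
        (TT D k W l₂.toFinset r + SP (TT D k W) l₂ ∅)) := by
    unfold PhiL
    rw [SP_append]
    congr 2
    show TT D k W (l₂.toFinset ∪ ∅) r + SP (TT D k W) l₂ ∅ = _
    rw [Finset.union_empty]
  have h3 := ex_E h
  have hcard : l₂.toFinset.card = l₂.length := List.toFinset_card_of_nodup hn2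
  obtain ⟨Y, hY1, hY2, hY3⟩ := exists_TT (D := D) (W := W) hV (Z := l₂.toFinset) (by
    rw [hcard]
    exact hl2) r
  have h4 : TT D k W ∅ r ≤ W ((Y ∪ l₂.toFinset) ∪ ∅) - ∑ y ∈ Y ∪ l₂.toFinset, D y r := by
    refine TT_le r ?_ (Finset.disjoint_empty_right _)
    rw [Finset.card_empty, add_zero, Finset.card_union_of_disjoint hY2, hY1]
  rw [Finset.union_empty, Finset.sum_union hY2, List.sum_toFinset _ hn2] at h4
  rw [h1, h2]
  linarith

end Pool.Agent.KServer.NU
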