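import Pool.Agent.Work.MP_fe875b_lc.NU.U0

/-! # Module FO (M): the two options

PROOF of `fo`. Let `Y` be the set of `exists_TT` for `Z`, `X = Y ∪ Z`. If `r ∈ Y`: `Y' = Y.erase r`, `Y' ∪ insert r Z = X`, so
`TT (insert r Z) p ≤ W X - ∑_{Y'} D y p = TT Z p + D r p`: first option. If `r ∉ Y`: `r ∉ X`, `RSup` gives `x ∈ X` with
`W (insert r (X.erase x)) + D x r ≤ W X`. If `x ∈ Y`: `Y' = Y.erase x`, `Y' ∪ insert r Z = insert r (X.erase x)`, so
`TT (insert r Z) p ≤ W X - D x r - ∑_Y D y p + D x p ≤ TT Z p + D p r` (triangle inequality): first option. If `x ∈ Z`: with the same `Y`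
(disjoint to `insert r (Z.erase x)`, `Y ∪ insert r (Z.erase x) = insert r (X.erase x)`): second option with `u = x`.
PROOF of `fo_aa`. `fo` gives `u ∈ Z`, `u ≠ r`, `D u r ≥ 1`. With `i = k - |Z|`: `aa Z p ≥ TT Z p + i` (`TT_le_aa`)
`≥ TT (insert r (Z.erase u)) p + 1 + i ≥ aa (insert r (Z.erase u)) p - i (1 + ε) + 1 + i` (`aa_le_TT`, same cardinality, `p` is not in the set), `i ≤ k`. -/

set_option autoImplicit false

namespace Pool.Agent.KServer.NU

open Finset

universe u

variable {V : Type u} [DecidableEq V] [Fintype V] {D : V → V → ℝ} {k : ℕ} {W : Finset V → ℝ}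

theorem fo (hD : Metr D) {r : V} (hr : RSup D k W r) (hV : k + 1 ≤ Fintype.card V)
    {Z : Finset V} (hrZ : r ∉ Z) {p : V} (hZ : Z.card + 1 ≤ k) :
    TT D k W (insert r Z) p - D p r ≤ TT D k W Z p ∨
      ∃ u ∈ Z, TT D k W (insert r (Z.erase u)) p + D u r ≤ TT D k W Z p := by
  obtain ⟨Y, hYc, hd, hY⟩ := exists_TT (D := D) (W := W) hV (show Z.card ≤ k by omega) p
  have hc : (insert r Z).card = Z.card + 1 := card_insert_of_notMem hrZ
  by_cases hrY : r ∈ Y
  · left
    have h1 : (Y.erase r).card = Y.card - 1 := card_erase_of_mem hrY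
    have h2 : 0 < Y.card := card_pos.2 ⟨r, hrY⟩
    have h3 : Disjoint (Y.erase r) (insert r Z) := by
      rw [disjoint_left]
      intro a ha hb
      rw [mem_insert] at hb
      rcases hb with h | h
      · exact (ne_of_mem_erase ha) h
      · exact disjoint_left.1 hd (mem_of_mem_erase ha) h
    have h4 : Y.erase r ∪ insert r Z = Y ∪ Z := by
      ext a
      simp only [mem_union, mem_erase, mem_insert]
      constructor
      · rintro (⟨_, h⟩ | h | h)
        · exact Or.inl h
        · rw [h]
          exact Or.inl hrY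
        · exact Or.inr h
      · rintro (h | h)
        · by_cases ha : a = r
          · exact Or.inr (Or.inl ha)
          · exact Or.inl ⟨ha, h⟩
        · exact Or.inr (Or.inr h)
    have h5 := TT_le (D := D) (W := W) (k := k) p (by omega) h3
    rw [h4] at h5
    have h6 := Finset.add_sum_erase Y (fun y => D y p) hrY
    have h7 := hD.comm p r
    linarith
  · have hXc : (Y ∪ Z).card = k := by
      rw [card_union_of_disjoint hd]
      exact hYc
    have hrX : r ∉ Y ∪ Z := by
      rw [mem_union]
      rintro (h | h)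
      · exact hrY h
      · exact hrZ h
    obtain ⟨x, hx, hWx⟩ := hr (Y ∪ Z) hXc hrX
    by_cases hxY : x ∈ Y
    · left
      have hxZ : x ∉ Z := fun h => disjoint_left.1 hd hxY h
      have h1 : (Y.erase x).card = Y.card - 1 := card_erase_of_mem hxY
      have h2 : 0 < Y.card := card_pos.2 ⟨x, hxY⟩
      have h3 : Disjoint (Y.erase x) (insert r Z) := by
        rw [disjoint_left]
        intro a ha hb
        rw [mem_insert] at hb
        rcases hb with h | h
        · exact hrY (h ▸ mem_of_mem_erase ha)
        · exact disjoint_left.1 hd (mem_of_mem_erase ha) h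
      have h4 : Y.erase x ∪ insert r Z = insert r ((Y ∪ Z).erase x) := by
        ext a
        simp only [mem_union, mem_erase, mem_insert]
        constructor
        · rintro (⟨h, h'⟩ | h | h)
          · exact Or.inr ⟨h, Or.inl h'⟩
          · exact Or.inl h
          · exact Or.inr ⟨fun hh => hxZ (hh ▸ h), Or.inr h⟩
        · rintro (h | ⟨h, h' | h'⟩)
          · exact Or.inr (Or.inl h)
          · exact Or.inl ⟨h, h'⟩
          · exact Or.inr (Or.inr h')
      have h5 := TT_le (D := D) (W := W) (k := k) p (by omega) h3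
      rw [h4] at h5
      have h6 := Finset.add_sum_erase Y (fun y => D y p) hxY
      have h7 := hD.comm p r
      have h8 := hD.tri x r p
      linarith
    · right
      have hxZ : x ∈ Z := by
        rcases mem_union.1 hx with h | h
        · exact absurd h hxY
        · exact h
      refine ⟨x, hxZ, ?_⟩
      have h0 : r ∉ Z.erase x := fun h => hrZ (mem_of_mem_erase h)
      have h1 : (insert r (Z.erase x)).card = Z.card := by
        rw [card_insert_of_notMem h0, card_erase_of_mem hxZ]
        have : 0 < Z.card := card_pos.2 ⟨x, hxZ⟩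
        omega
      have h3 : Disjoint Y (insert r (Z.erase x)) := by
        rw [disjoint_left]
        intro a ha hb
        rw [mem_insert] at hb
        rcases hb with h | h
        · exact hrY (h ▸ ha)
        · exact disjoint_left.1 hd ha (mem_of_mem_erase h)
      have h4 : Y ∪ insert r (Z.erase x) = insert r ((Y ∪ Z).erase x) := by
        ext a
        simp only [mem_union, mem_erase, mem_insert]
        constructor
        · rintro (h | h | ⟨h, h'⟩)
          · exact Or.inr ⟨fun hh => hxY (hh ▸ h), Or.inl h⟩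
          · exact Or.inl h
          · exact Or.inr ⟨h, Or.inr h'⟩
        · rintro (h | ⟨h, h' | h'⟩)
          · exact Or.inr (Or.inl h)
          · exact Or.inl h'
          · exact Or.inr (Or.inr ⟨h, h'⟩)
      have h5 := TT_le (D := D) (W := W) (k := k) p (by omega) h3
      rw [h4] at h5
      linarith

theorem fo_aa {ε : ℝ} (hD : Near D ε) (hε : 0 ≤ ε) (hW : FW D k W) {r : V}
    (hr : RSup D k W r) (hV : k + 1 ≤ Fintype.card V) {Z : Finset V} (hrZ : r ∉ Z) {p : V}
    (hpr : p ≠ r) (hp : p ∉ Z) (hZ : Z.card + 1 ≤ k)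
    (hn : ¬ TT D k W (insert r Z) p - D p r ≤ TT D k W Z p) :
    ∃ u ∈ Z, aa k W (insert r (Z.erase u)) p + 1 - k * ε ≤ aa k W Z p := by
  rcases fo (W := W) hD.metr hr hV hrZ (p := p) hZ with h | ⟨u, hu, h⟩
  · exact absurd h hn
  · refine ⟨u, hu, ?_⟩
    obtain ⟨i, hi⟩ : ∃ i, Z.card + i = k := ⟨k - Z.card, by omega⟩
    have hur : u ≠ r := fun hh => hrZ (hh ▸ hu)
    have h1 := hD.lo u r hur
    have h2 := TT_le_aa (W := W) hD hV hi hp
    have h0 : r ∉ Z.erase u := fun h => hrZ (mem_of_mem_erase h)
    have h3 : (insert r (Z.erase u)).card = Z.card := by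
      rw [card_insert_of_notMem h0, card_erase_of_mem hu]
      have : 0 < Z.card := card_pos.2 ⟨u, hu⟩
      omega
    have h4 : p ∉ insert r (Z.erase u) := by
      rw [mem_insert]
      rintro (h | h)
      · exact hpr h
      · exact hp (mem_of_mem_erase h)
    have h5 := aa_le_TT hD hε hW hV (show (insert r (Z.erase u)).card + i = k by omega) h4
    have h6 : (i : ℝ) ≤ k := by
      have : i ≤ k := by omega
      exact_mod_cast this
    have h7 : (i : ℝ) * ε ≤ k * ε := mul_le_mul_of_nonneg_right h6 hε
    nlinarith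

end Pool.Agent.KServer.NU
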