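import Pool.Agent.Work.MP_fe875b_lc.W.Alg

/-! # Module Tr (S): transport of work functions along a map

PROOF. As `wf_antiD` in W/Ant.lean: `wfR` on reversed lists by induction; `φ ∘ update X i r = update (φ ∘ X) i (φ r)`. `wf_nonneg`: induction,
`wf0` is an infimum of sums of nonnegative numbers, `upd` an infimum of nonnegative numbers (`Real.iInf_nonneg`). -/

set_option autoImplicit false

namespace Pool.Agent.KServer.NU

open Finset

variable {V M : Type*} {k : ℕ}

theorem wf_map (φ : V → M) (D : M → M → ℝ) (c₀ : Fin k → V) (σ : List V) (X : Fin k → V) :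
    wf (fun x y => D (φ x) (φ y)) c₀ σ X =
      wf D (fun i => φ (c₀ i)) (σ.map φ) (fun i => φ (X i)) := by
  classical
  unfold wf
  rw [← List.map_reverse]
  generalize σ.reverse = l
  induction l generalizing X with
  | nil => rfl
  | cons r l ih =>
    change upd (fun x y => D (φ x) (φ y)) (wfR (fun x y => D (φ x) (φ y)) c₀ l) r X =
      upd D (wfR D (fun i => φ (c₀ i)) (l.map φ)) (φ r) (fun i => φ (X i))
    unfold upd
    congr 1
    funext i
    have e : Function.update (fun j => φ (X j)) i (φ r) = fun j => φ (Function.update X i r j) := by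
      funext j
      simp only [Function.update_apply]
      split_ifs <;> rfl
    rw [e, ← ih]

theorem wf_nonneg {D : M → M → ℝ} (hD : ∀ x y, 0 ≤ D x y) (c₀ : Fin k → M) (σ : List M)
    (X : Fin k → M) : 0 ≤ wf D c₀ σ X := by
  unfold wf
  generalize σ.reverse = l
  induction l generalizing X with
  | nil =>
    change 0 ≤ wf0 D c₀ X
    unfold wf0
    exact Real.iInf_nonneg fun π => Finset.sum_nonneg fun i _ => hD _ _
  | cons r l ih =>
    change 0 ≤ upd D (wfR D c₀ l) r X
    unfold upd
    exact Real.iInf_nonneg fun i => add_nonneg (ih _) (hD _ _)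

end Pool.Agent.KServer.NU
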