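import Pool.Agent.Work.MP_fe875b_lc.NU.Pot
import Pool.Agent.Work.MP_fe875b_lc.NU.AlgI
import Pool.Agent.Work.MP_fe875b_lc.NU.Tr

/-! # Module Fi (M-L): near-uniform spaces, injective start

PROOF. `C` from `exists_wfa_inj`. Fix `σ` and `S` serving it. Let `F : Finset M` contain the `c₀ i`, all elements of `σ` and `p` (so `|F| ≥ k + 1`), `V = {x // x ∈ F}`,
`DV x y = D x.1 y.1` (`Near`), `c : Fin k → V` the start. For a prefix `τ` of `σ` write `τV : List V` (`List.attach`-like; or: every list of elements of `F` is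
`ℓ.map Subtype.val`; do the induction over `ℓ : List V` instead of over prefixes). `W ℓ = sw (wf DV c ℓ) : Finset V → ℝ`. `wf_map` with `φ = Subtype.val`.
(1) For `ℓ : List V`, `X : Fin k → V` injective: `wf DV c (ℓ ++ [r]) X - wf DV c ℓ X ≤ Phi (W (ℓ ++ [r])) - Phi (W ℓ)`: `Phi_step` with `B = univ.image X`,
`sw_eq`, `fw_sw`, `isUpd_sw`, `wf_append`, `qwf_wf`.
(2) Induction on `ℓ` from the right: `algCost D C (ℓ.map val) + wf D c₀ (ℓ.map val) (C (ℓ.map val)) ≤ Phi (W ℓ) - Phi (W [])`: start `wf0_self`; step: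
`algCost_append`, last property of `exists_wfa_inj`, and (1) for `X = C (ℓ.map val)` (in `F`, injective), `wf_map`.
(3) `Phi (W ℓ) ≤ (k + 1) wf D c₀ σ (C σ)` (`Phi_le`, `sw_eq`), `Phi (W []) ≥ - k k (1 + ε)` (`le_Phi`, `wf_nonneg`). So `algCost D C σ ≤ k wf D c₀ σ (C σ) + k k (1 + ε)`.
(4) `wf D c₀ σ (C σ) ≤ wf D c₀ σ (S σ.length) + k (1 + ε)` (`lip_sum`, `D ≤ 1 + ε`) and `wf_le_sched`. Total constant `2 k k (1 + ε)`. -/

set_option autoImplicit false

namespace Pool.Agent.KServer.NU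

open Finset

private theorem near_sub {M : Type*} {D : M → M → ℝ} {ε : ℝ} (hD : Near D ε) (P : M → Prop) :
    Near (fun x y : {x // P x} => D x.1 y.1) ε where
  metr :=
    { self := fun x => hD.metr.self x.1
      nonneg := fun x y => hD.metr.nonneg x.1 y.1
      tri := fun x y z => hD.metr.tri x.1 y.1 z.1
      comm := fun x y => hD.metr.comm x.1 y.1 }
  lo := fun x y h => hD.lo x.1 y.1 fun h' => h (Subtype.ext h')
  hi := fun x y h => hD.hi x.1 y.1 fun h' => h (Subtype.ext h')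

private theorem fi_key {M : Type*} {k : ℕ} (hk : 0 < k) {D : M → M → ℝ} {ε : ℝ} (hD : Near D ε)
    (hε : 0 ≤ ε) (hε' : ε * (k * (k + 1) / 2 + 2 * k + 1) ≤ 1 / 3) (c₀ : Fin k → M)
    (C : List M → Fin k → M) (hC : Online c₀ C) (hinj : ∀ σ, Function.Injective (C σ))
    (hF : ∀ (F : Set M) (σ : List M), (∀ i, c₀ i ∈ F) → (∀ x ∈ σ, x ∈ F) → ∀ i, C σ i ∈ F)
    (hlast : ∀ (σ : List M) (r : M), ∑ j, D (C σ j) (C (σ ++ [r]) j) +
        wf D c₀ (σ ++ [r]) (C (σ ++ [r])) ≤ wf D c₀ (σ ++ [r]) (C σ))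
    (F : Finset M) [DecidableEq {x // x ∈ F}] (hcF : ∀ i, c₀ i ∈ F)
    (hcard : k + 1 ≤ Fintype.card {x // x ∈ F})
    (ℓ : List {x // x ∈ F}) :
    algCost D C (ℓ.map Subtype.val) + wf D c₀ (ℓ.map Subtype.val) (C (ℓ.map Subtype.val)) ≤
      Phi (fun x y : {x // x ∈ F} => D x.1 y.1) k
        (sw (wf (fun x y : {x // x ∈ F} => D x.1 y.1) (fun i => ⟨c₀ i, hcF i⟩) ℓ)) -
      Phi (fun x y : {x // x ∈ F} => D x.1 y.1) k
        (sw (wf (fun x y : {x // x ∈ F} => D x.1 y.1) (fun i => ⟨c₀ i, hcF i⟩) [])) := by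
  have hDV := near_sub hD (fun x => x ∈ F)
  set DV : {x // x ∈ F} → {x // x ∈ F} → ℝ := fun x y => D x.1 y.1 with hDVd
  set c : Fin k → {x // x ∈ F} := fun i => ⟨c₀ i, hcF i⟩ with hcd
  induction ℓ using List.reverseRecOn with
  | nil =>
    rw [List.map_nil, algCost_nil, hC.1, wf_nil, wf0_self hD.metr]
    simp
  | append_singleton ℓ r ih =>
    have h1 := hlast (ℓ.map Subtype.val) r.1
    have h2 : ∀ i, C (ℓ.map Subtype.val) i ∈ F := by
      intro i
      refine hF (F : Set M) (ℓ.map Subtype.val) (fun i => hcF i) ?_ i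
      intro x hx
      obtain ⟨y, _, hy⟩ := List.mem_map.1 hx
      rw [← hy]
      exact y.2
    set X : Fin k → {x // x ∈ F} := fun i => ⟨C (ℓ.map Subtype.val) i, h2 i⟩ with hX
    have hXi : Function.Injective X := by
      intro i j hij
      exact hinj (ℓ.map Subtype.val) (congrArg Subtype.val hij)
    have hq := qwf_wf hk hDV.metr c ℓ
    have hq' := qwf_wf hk hDV.metr c (ℓ ++ [r])
    have hU : IsUpd DV k (sw (wf DV c ℓ)) (sw (wf DV c (ℓ ++ [r]))) r := by
      rw [wf_append]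
      exact isUpd_sw hk hDV.metr hq r
    have h3 := Phi_step hDV hε hε' hk (fw_sw hq) (fw_sw hq') hU hcard (B := univ.image X) (by
      rw [Finset.card_image_of_injective _ hXi, Finset.card_univ, Fintype.card_fin])
    rw [sw_eq hq'.symm hXi, sw_eq hq.symm hXi] at h3
    have e1 : wf DV c ℓ X = wf D c₀ (ℓ.map Subtype.val) (C (ℓ.map Subtype.val)) :=
      wf_map Subtype.val D c ℓ X
    have e2 : wf DV c (ℓ ++ [r]) X =
        wf D c₀ (ℓ.map Subtype.val ++ [r.1]) (C (ℓ.map Subtype.val)) := by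
      have := wf_map Subtype.val D c (ℓ ++ [r]) X
      rw [List.map_append, List.map_singleton] at this
      exact this
    rw [e1, e2] at h3
    rw [List.map_append, List.map_singleton, algCost_append]
    linarith

theorem near_comp {M : Type*} {k : ℕ} (hk : 0 < k) {D : M → M → ℝ} {ε : ℝ} (hD : Near D ε)
    (hε : 0 ≤ ε) (hε' : ε * (k * (k + 1) / 2 + 2 * k + 1) ≤ 1 / 3) (c₀ : Fin k → M)
    (hc : Function.Injective c₀) {p : M} (hp : ∀ i, c₀ i ≠ p) :
    Comp D c₀ (k : ℝ) (2 * (k * k * (1 + ε))) := by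
  classical
  obtain ⟨C, hC, hinj, hF, hlast⟩ := exists_wfa_inj hk hD.metr c₀ hc
  refine ⟨C, hC, fun σ S hS => ?_⟩
  set F : Finset M := (univ.image c₀ ∪ σ.toFinset) ∪ {p} with hFd
  have hcF : ∀ i, c₀ i ∈ F := by
    intro i
    rw [hFd]
    exact mem_union_left _ (mem_union_left _ (mem_image_of_mem _ (mem_univ i)))
  have hσF : ∀ x ∈ σ, x ∈ F := by
    intro x hx
    rw [hFd]
    exact mem_union_left _ (mem_union_right _ (List.mem_toFinset.2 hx))
  have hcard : k + 1 ≤ Fintype.card {x // x ∈ F} := by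
    rw [Fintype.card_coe]
    have h1 : insert p (univ.image c₀) ⊆ F := by
      intro x hx
      rw [mem_insert] at hx
      rw [hFd]
      rcases hx with h | h
      · rw [h]
        exact mem_union_right _ (mem_singleton_self p)
      · exact mem_union_left _ (mem_union_left _ h)
    have h2 : p ∉ univ.image c₀ := by
      intro h
      obtain ⟨i, _, hi⟩ := mem_image.1 h
      exact hp i hi
    have h3 := card_le_card h1
    rw [card_insert_of_notMem h2, card_image_of_injective _ hc, card_univ, Fintype.card_fin] at h3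
    exact h3
  set ℓ : List {x // x ∈ F} := σ.attachWith (fun x => x ∈ F) hσF with hℓ
  have hℓσ : ℓ.map Subtype.val = σ := List.attachWith_map_subtype_val hσF
  have hDV := near_sub hD (fun x => x ∈ F)
  have h1 := fi_key hk hD hε hε' c₀ C hC hinj hF hlast F hcF hcard ℓ
  rw [hℓσ] at h1
  have hXF : ∀ i, C σ i ∈ F := hF (F : Set M) σ (fun i => hcF i) (fun x hx => hσF x hx)
  have hXi : Function.Injective (fun i => (⟨C σ i, hXF i⟩ : {x // x ∈ F})) := by
    intro i j hij
    exact hinj σ (congrArg Subtype.val hij)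
  have hq := qwf_wf hk hDV.metr (fun i => (⟨c₀ i, hcF i⟩ : {x // x ∈ F})) ℓ
  have h2 := Phi_le (k := k)
    (W := sw (wf (fun x y : {x // x ∈ F} => D x.1 y.1) (fun i => ⟨c₀ i, hcF i⟩) ℓ)) hDV.metr
    (X := univ.image (fun i => (⟨C σ i, hXF i⟩ : {x // x ∈ F}))) (by
      rw [Finset.card_image_of_injective _ hXi, Finset.card_univ, Fintype.card_fin])
  rw [sw_eq hq.symm hXi] at h2
  have e1 : wf (fun x y : {x // x ∈ F} => D x.1 y.1) (fun i => ⟨c₀ i, hcF i⟩) ℓ
      (fun i => (⟨C σ i, hXF i⟩ : {x // x ∈ F})) = wf D c₀ σ (C σ) := by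
    have := wf_map Subtype.val D (fun i => (⟨c₀ i, hcF i⟩ : {x // x ∈ F})) ℓ
      (fun i => (⟨C σ i, hXF i⟩ : {x // x ∈ F}))
    rw [hℓσ] at this
    exact this
  rw [e1] at h2
  have h3 := le_Phi (k := k)
    (W := sw (wf (fun x y : {x // x ∈ F} => D x.1 y.1) (fun i => ⟨c₀ i, hcF i⟩) [])) hDV hε hcard
    (fun X => by
      unfold sw
      split
      · exact wf_nonneg (fun x y => hDV.metr.nonneg x y) _ _ _
      · exact le_refl 0)
  have hqD := qwf_wf hk hD.metr c₀ σ
  have h4 := lip_sum hqD (S σ.length) (C σ)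
  have h5 : ∑ i, D (S σ.length i) (C σ i) ≤ k * (1 + ε) := by
    have h6 : ∀ x y, D x y ≤ 1 + ε := by
      intro x y
      by_cases hxy : x = y
      · rw [hxy, hD.metr.self]
        linarith
      · exact hD.hi x y hxy
    calc ∑ i, D (S σ.length i) (C σ i) ≤ ∑ _i : Fin k, (1 + ε) :=
          Finset.sum_le_sum fun i _ => h6 _ _
      _ = k * (1 + ε) := by
          rw [Finset.sum_const, Finset.card_univ, Fintype.card_fin, nsmul_eq_mul]
  have h6 := wf_le_sched hk hD.metr c₀ σ S hS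
  have hk0 : (0 : ℝ) ≤ k := Nat.cast_nonneg k
  have h7 : (k : ℝ) * wf D c₀ σ (C σ) ≤ k * (schedCost D S σ.length + k * (1 + ε)) :=
    mul_le_mul_of_nonneg_left (by linarith) hk0
  nlinarith

end Pool.Agent.KServer.NU
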