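import Pool.Agent.Work.MP_fe875b_lc.NU.Fi

/-! # Module Gen (M): all starts, all sizes, all scales

PROOF. `comp_start`: `C` for `c₁`; `C' [] = c₀`, `C' σ = C σ` for `σ ≠ []`. `algCost C' σ ≤ ∑ D (c₀ i) (c₁ i) + algCost C σ` (triangle inequality in the first step
`j = 0`; for `σ = []` both are `0`). If `S` serves `σ` from `c₀`, `S' 0 = c₁`, `S' j = S j` for `j > 0` serves `σ` from `c₁`, and
`schedCost S' ≤ ∑ D (c₀ i) (c₁ i) + schedCost S`.
`comp_scale`: costs are multiplied by `a`. `comp_small`: `g : Fin k → M` surjective; `C [] = c₀`, `C σ = g` for `σ ≠ []`: cost at most `∑ D (c₀ i) (g i)`.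
`near_all`: `D' x y = dist x y / a` satisfies `Near D' ε`. If there is an injective `c₁ : Fin k → M` and `p` outside its range (i.e. `M` has at least `k + 1` points: an injective
map `Fin (k + 1) → M`): `near_comp`, `comp_start`, `comp_scale`. Otherwise `M` is finite with at most `k` points: if there is no injective map
`Fin (k + 1) → M`, `M` is finite with `Nat.card M ≤ k`, nonempty (`c₀`), so there is a surjection `Fin k → M`: `comp_small`. -/

set_option autoImplicit false

namespace Pool.Agent.KServer.NU

open Finset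

/-- replace the start position -/
private def rst {M : Type*} {k : ℕ} (c₀ : Fin k → M) (C : List M → Fin k → M) : List M → Fin k → M
  | [] => c₀
  | (x :: l) => C (x :: l)

private theorem rst_ne {M : Type*} {k : ℕ} (c₀ : Fin k → M) (C : List M → Fin k → M) {σ : List M}
    (h : σ ≠ []) : rst c₀ C σ = C σ := by
  cases σ with
  | nil => exact absurd rfl h
  | cons x l => rfl

private theorem rst_append {M : Type*} {k : ℕ} (c₀ : Fin k → M) (C : List M → Fin k → M) (l : List M)
    (r : M) : rst c₀ C (l ++ [r]) = C (l ++ [r]) := rst_ne c₀ C (by simp)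

private theorem algCost_rst {M : Type*} {k : ℕ} {D : M → M → ℝ} (hD : Metr D) (c₀ : Fin k → M)
    (C : List M → Fin k → M) (σ : List M) :
    algCost D (rst c₀ C) σ ≤ ∑ i, D (c₀ i) (C [] i) + algCost D C σ := by
  induction σ using List.reverseRecOn with
  | nil =>
    rw [algCost_nil, algCost_nil, add_zero]
    exact sum_nonneg fun i _ => hD.nonneg _ _
  | append_singleton l r ih =>
    rw [algCost_append, algCost_append, rst_append]
    by_cases hl : l = []
    · subst hl
      rw [algCost_nil, algCost_nil, zero_add, zero_add, ← sum_add_distrib]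
      exact sum_le_sum fun i _ => hD.tri _ _ _
    · rw [rst_ne c₀ C hl]
      linarith

private theorem schedCost_rst {M : Type*} {k : ℕ} {D : M → M → ℝ} (hD : Metr D) (c₁ : Fin k → M)
    (S S' : ℕ → Fin k → M) (h0 : S' 0 = c₁) (hS : ∀ j, S' (j + 1) = S (j + 1)) (n : ℕ) :
    schedCost D S' n ≤ ∑ i, D (S 0 i) (c₁ i) + schedCost D S n := by
  have key : ∀ m : ℕ, schedCost D S' (m + 1) ≤ ∑ i, D (S 0 i) (c₁ i) + schedCost D S (m + 1) := by
    intro m
    induction m with
    | zero =>
      unfold schedCost
      rw [sum_range_one, sum_range_one, ← sum_add_distrib, h0, hS 0]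
      refine sum_le_sum fun i _ => ?_
      rw [hD.comm (S 0 i) (c₁ i)]
      exact hD.tri _ _ _
    | succ m ih =>
      unfold schedCost at ih ⊢
      rw [sum_range_succ _ (m + 1), sum_range_succ _ (m + 1), hS m, hS (m + 1)]
      linarith
  cases n with
  | zero =>
    have h1 : ∀ T : ℕ → Fin k → M, schedCost D T 0 = 0 := fun T => by
      unfold schedCost
      rw [sum_range_zero]
    rw [h1, h1, add_zero]
    exact sum_nonneg fun i _ => hD.nonneg _ _
  | succ m => exact key m

theorem comp_start {M : Type*} {k : ℕ} {D : M → M → ℝ} (hD : Metr D) {c b : ℝ} (hc : 0 ≤ c)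
    {c₁ : Fin k → M} (h : Comp D c₁ c b) (c₀ : Fin k → M) :
    Comp D c₀ c (b + (c + 1) * ∑ i, D (c₀ i) (c₁ i)) := by
  obtain ⟨C, hC, h⟩ := h
  refine ⟨rst c₀ C, ⟨rfl, fun l r => ?_⟩, fun σ S hS => ?_⟩
  · rw [rst_append]
    exact hC.2 l r
  · let S' : ℕ → Fin k → M := fun j => match j with
      | 0 => c₁
      | j + 1 => S (j + 1)
    have hS' : Serves c₁ σ S' := ⟨rfl, fun j => hS.2 j⟩
    have h1 := h σ S' hS'
    have h2 := algCost_rst hD c₀ C σ
    have h3 := schedCost_rst hD c₁ S S' rfl (fun _ => rfl) σ.length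
    rw [hC.1] at h2
    rw [hS.1] at h3
    have h4 := mul_le_mul_of_nonneg_left h3 hc
    linarith

theorem comp_scale {M : Type*} {k : ℕ} {D : M → M → ℝ} {a c b : ℝ} (ha : 0 < a)
    {c₀ : Fin k → M} (h : Comp (fun x y => D x y / a) c₀ c b) : Comp D c₀ c (a * b) := by
  obtain ⟨C, hC, h⟩ := h
  refine ⟨C, hC, fun σ S hS => ?_⟩
  have h1 := h σ S hS
  have h2 : algCost (fun x y => D x y / a) C σ = algCost D C σ / a := by
    unfold algCost
    rw [sum_div]
    exact sum_congr rfl fun j _ => (sum_div _ _ _).symm
  have h3 : schedCost (fun x y => D x y / a) S σ.length = schedCost D S σ.length / a := by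
    unfold schedCost
    rw [sum_div]
    exact sum_congr rfl fun j _ => (sum_div _ _ _).symm
  rw [h2, h3, div_le_iff₀ ha] at h1
  have h4 : (c * (schedCost D S σ.length / a) + b) * a = c * schedCost D S σ.length + a * b := by
    field_simp
  linarith

theorem comp_small {M : Type*} {k : ℕ} {D : M → M → ℝ} (hD : Metr D) {c : ℝ} (hc : 0 ≤ c)
    {g : Fin k → M} (hg : Function.Surjective g) (c₀ : Fin k → M) :
    Comp D c₀ c (∑ i, D (c₀ i) (g i)) := by
  refine ⟨rst c₀ (fun _ => g), ⟨rfl, fun l r => ?_⟩, fun σ S hS => ?_⟩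
  · rw [rst_append]
    exact hg r
  · have h1 := algCost_rst hD c₀ (fun _ => g) σ
    have h2 : algCost D (fun _ => g) σ = 0 := by
      unfold algCost
      refine sum_eq_zero fun j _ => sum_eq_zero fun i _ => hD.self _
    have h3 := mul_nonneg hc (schedCost_nonneg hD.toIsDist S σ.length)
    rw [h2] at h1
    linarith

private theorem metr_div {M : Type*} [MetricSpace M] {a : ℝ} (ha : 0 < a) :
    Metr (fun x y : M => dist x y / a) where
  self := fun x => by
    show dist x x / a = 0
    rw [dist_self, zero_div]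
  nonneg := fun x y => div_nonneg dist_nonneg ha.le
  tri := fun x y z => by
    show dist x z / a ≤ dist x y / a + dist y z / a
    rw [← add_div]
    exact div_le_div_of_nonneg_right (dist_triangle _ _ _) ha.le
  comm := fun x y => by
    show dist x y / a = dist y x / a
    rw [dist_comm]

theorem near_all {M : Type*} [MetricSpace M] {k : ℕ} (hk : 0 < k) {a ε : ℝ} (ha : 0 < a)
    (hε : 0 ≤ ε) (hε' : ε * (k * (k + 1) / 2 + 2 * k + 1) ≤ 1 / 3)
    (h : ∀ x y : M, x ≠ y → a ≤ dist x y ∧ dist x y ≤ (1 + ε) * a) (c₀ : Fin k → M) :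
    ∃ b : ℝ, Comp (fun x y => dist x y) c₀ (k : ℝ) b := by
  have hk0 : (0 : ℝ) ≤ (k : ℝ) := Nat.cast_nonneg _
  by_cases hf : ∃ f : Fin (k + 1) → M, Function.Injective f
  · obtain ⟨f, hf⟩ := hf
    have hN : Near (fun x y : M => dist x y / a) ε :=
      { metr := metr_div ha
        lo := fun x y hxy => by
          show 1 ≤ dist x y / a
          rw [le_div_iff₀ ha, one_mul]
          exact (h x y hxy).1
        hi := fun x y hxy => by
          show dist x y / a ≤ 1 + ε
          rw [div_le_iff₀ ha]
          exact (h x y hxy).2 }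
    have h1 := near_comp hk hN hε hε' (fun i : Fin k => f i.castSucc)
      (fun i j hij => Fin.castSucc_injective k (hf hij)) (p := f (Fin.last k))
      (fun i hi => absurd (hf hi) (Fin.castSucc_lt_last i).ne)
    have h2 := comp_start (metr_div ha) hk0 h1 c₀
    exact ⟨_, comp_scale (D := fun x y : M => dist x y) ha h2⟩
  · have hfin : Finite M := by
      by_contra hinf
      rw [not_finite_iff_infinite] at hinf
      exact hf ⟨fun i => Infinite.natEmbedding M i, fun i j hij =>
        Fin.ext ((Infinite.natEmbedding M).injective hij)⟩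
    have : Fintype M := Fintype.ofFinite M
    have hcard : Fintype.card M ≤ Fintype.card (Fin k) := by
      by_contra hlt
      rw [not_le, Fintype.card_fin] at hlt
      have h1 : Fintype.card (Fin (k + 1)) ≤ Fintype.card M := by
        rw [Fintype.card_fin]
        exact hlt
      obtain ⟨e⟩ := Function.Embedding.nonempty_of_card_le h1
      exact hf ⟨e, e.injective⟩
    obtain ⟨e⟩ := Function.Embedding.nonempty_of_card_le hcard
    have : Nonempty M := ⟨c₀ ⟨0, hk⟩⟩
    have h3 : Metr (fun x y : M => dist x y) :=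
      { self := fun x => dist_self x
        nonneg := fun x y => dist_nonneg
        tri := fun x y z => dist_triangle x y z
        comm := fun x y => dist_comm x y }
    exact ⟨_, comp_small h3 hk0 (Function.invFun_surjective e.injective) c₀⟩

end Pool.Agent.KServer.NU
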