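import Pool.Agent.Work.MP_fe875b_lc.NU.Gen

/-! # Near-uniform metric spaces: the explicit additive constant -/

set_option autoImplicit false

namespace Pool.Agent.KServer.NU

open Finset

private theorem comp_mono {M : Type*} {k : ℕ} {D : M → M → ℝ} {c₀ : Fin k → M} {c b b' : ℝ}
    (h : Comp D c₀ c b) (hb : b ≤ b') : Comp D c₀ c b' := by
  obtain ⟨C, hC, h⟩ := h
  exact ⟨C, hC, fun σ S hS => (h σ S hS).trans (by linarith)⟩

private theorem metr_divU {M : Type*} [MetricSpace M] {a : ℝ} (ha : 0 < a) :
    Metr (fun x y : M => dist x y / a) :=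
  { self := fun x => by
      show dist x x / a = 0
      rw [dist_self, zero_div]
    nonneg := fun x y => div_nonneg dist_nonneg ha.le
    tri := fun x y z => by
      show dist x z / a ≤ dist x y / a + dist y z / a
      rw [← add_div]
      exact div_le_div_of_nonneg_right (dist_triangle x y z) ha.le
    comm := fun x y => by
      show dist x y / a = dist y x / a
      rw [dist_comm] }

theorem near_allU {M : Type*} [MetricSpace M] {k : ℕ} (hk : 0 < k) {a ε : ℝ} (ha : 0 < a)
    (hε : 0 ≤ ε) (hε' : ε * (k * (k + 1) / 2 + 2 * k + 1) ≤ 1 / 3)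
    (h : ∀ x y : M, x ≠ y → a ≤ dist x y ∧ dist x y ≤ (1 + ε) * a) (c₀ : Fin k → M) :
    Comp (fun x y => dist x y) c₀ (k : ℝ) (5 * (k : ℝ) ^ 2 * a) := by
  have hk0 : (0 : ℝ) ≤ (k : ℝ) := Nat.cast_nonneg _
  have hk1 : (1 : ℝ) ≤ (k : ℝ) := by exact_mod_cast hk
  have hε12 : ε ≤ 1 / 12 := by
    have h4 : (4 : ℝ) ≤ k * (k + 1) / 2 + 2 * k + 1 := by nlinarith
    have h5 := mul_le_mul_of_nonneg_left h4 hε
    linarith
  have hdist : ∀ x y : M, dist x y ≤ (1 + ε) * a := by
    intro x y
    by_cases hxy : x = y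
    · rw [hxy, dist_self]
      positivity
    · exact (h x y hxy).2
  have hkk : (k : ℝ) ≤ (k : ℝ) ^ 2 := by nlinarith
  have hfac : (1 + ε) * a ≤ 13 / 12 * a := mul_le_mul_of_nonneg_right (by linarith) ha.le
  by_cases hf : ∃ f : Fin (k + 1) → M, Function.Injective f
  · obtain ⟨f, hf⟩ := hf
    have hN : Near (fun x y : M => dist x y / a) ε :=
      { metr := metr_divU ha
        lo := fun x y hxy => by
          show 1 ≤ dist x y / a
          rw [le_div_iff₀ ha, one_mul]
          exact (h x y hxy).1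
        hi := fun x y hxy => by
          show dist x y / a ≤ 1 + ε
          rw [div_le_iff₀ ha]
          exact (h x y hxy).2 }
    have h1 := near_comp hk hN hε hε' (fun i : Fin k => f i.castSucc)
      (fun i j hij => Fin.castSucc_injective k (hf hij)) (p := f (Fin.last k))
      (fun i hi => absurd (hf hi) (Fin.castSucc_lt_last i).ne)
    have h2 := comp_start (metr_divU ha) hk0 h1 c₀
    refine comp_mono (comp_scale (D := fun x y : M => dist x y) ha h2) ?_
    have hsum : ∑ i : Fin k, dist (c₀ i) (f i.castSucc) / a ≤ k * (13 / 12) := by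
      have h3 : ∀ i ∈ (univ : Finset (Fin k)), dist (c₀ i) (f i.castSucc) / a ≤ 13 / 12 := by
        intro i _
        rw [div_le_iff₀ ha]
        exact (hdist _ _).trans hfac
      refine (Finset.sum_le_sum h3).trans ?_
      rw [Finset.sum_const, Finset.card_univ, Fintype.card_fin, nsmul_eq_mul]
    have h4 : ((k : ℝ) + 1) * ∑ i : Fin k, dist (c₀ i) (f i.castSucc) / a ≤
        (k + 1) * (k * (13 / 12)) := mul_le_mul_of_nonneg_left hsum (by linarith)
    have h5 : 2 * ((k : ℝ) * k * (1 + ε)) ≤ 2 * (k * k * (13 / 12)) := by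
      have : (k : ℝ) * k * (1 + ε) ≤ k * k * (13 / 12) :=
        mul_le_mul_of_nonneg_left (by linarith) (mul_nonneg hk0 hk0)
      linarith
    have h6 : 2 * ((k : ℝ) * k * (1 + ε)) +
        ((k : ℝ) + 1) * ∑ i : Fin k, dist (c₀ i) (f i.castSucc) / a ≤ 5 * (k : ℝ) ^ 2 := by
      nlinarith
    calc a * (2 * ((k : ℝ) * k * (1 + ε)) +
        ((k : ℝ) + 1) * ∑ i : Fin k, dist (c₀ i) (f i.castSucc) / a)
        ≤ a * (5 * (k : ℝ) ^ 2) := mul_le_mul_of_nonneg_left h6 ha.le
      _ = 5 * (k : ℝ) ^ 2 * a := by ring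
  · have hfin : Finite M := by
      by_contra hinf
      rw [not_finite_iff_infinite] at hinf
      exact hf ⟨fun i => Infinite.natEmbedding M i, fun i j hij =>
        Fin.ext ((Infinite.natEmbedding M).injective hij)⟩
    have : Fintype M := Fintype.ofFinite M
    have hcard : Fintype.card M ≤ Fintype.card (Fin k) := by
      by_contra hlt
      rw [not_le, Fintype.card_fin] at hlt
      have h1 : Fintype.card (Fin (k + 1)) ≤ Fintype.card M := by
        rw [Fintype.card_fin]
        exact hlt
      obtain ⟨e⟩ := Function.Embedding.nonempty_of_card_le h1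
      exact hf ⟨e, e.injective⟩
    obtain ⟨e⟩ := Function.Embedding.nonempty_of_card_le hcard
    have : Nonempty M := ⟨c₀ ⟨0, hk⟩⟩
    have h3 : Metr (fun x y : M => dist x y) :=
      { self := fun x => dist_self x
        nonneg := fun x y => dist_nonneg
        tri := fun x y z => dist_triangle x y z
        comm := fun x y => dist_comm x y }
    refine comp_mono (comp_small h3 hk0 (Function.invFun_surjective e.injective) c₀) ?_
    have h4 : ∀ i ∈ (univ : Finset (Fin k)),
        dist (c₀ i) (Function.invFun e i) ≤ 13 / 12 * a := fun i _ => (hdist _ _).trans hfac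
    refine (Finset.sum_le_sum h4).trans ?_
    rw [Finset.sum_const, Finset.card_univ, Fintype.card_fin, nsmul_eq_mul]
    nlinarith [mul_le_mul_of_nonneg_right hkk ha.le, mul_nonneg hk0 ha.le]

end Pool.Agent.KServer.NU
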