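import Pool.Agent.Work.MP_fe875b_lc.NU.Tx

/-! # Module Xc (M): one exchange

PROOF. Let `X₂` be the set of `exists_aa` for `(insert r (Z.erase u), p)`, `W X₂ = α`. `aa Z p ≤ aa (insert r Z) p` (`aa_mono`).
`xc_one`: if `p ∉ X₁`, `aa Z p ≤ W X₁` (`aa_le`) and `mu ≤ α`. If `p ∈ X₁`: `exch` for `X₁, X₂, p` (`p ∉ X₂`) gives `v ∈ X₂ \ X₁`;
`insert v (X₁.erase p)` contains `Z`, not `p` (`v ≠ p`), so `aa Z p + mu ≤ W X₁ + α` (`mu_le` for the other set).
`xc_two`: the same exchange gives `v' ∈ X₂ \ X₁`. If `v' = v`: `insert v (X₁.erase p)` contains `Z`: as before the first alternative. If `v' ≠ v`: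
`insert v' (X₁.erase p)` contains `insert r (Z.erase v)`, not `p`, so `aa (insert r (Z.erase v)) p + mu ≤ W X₁ + α`. -/

set_option autoImplicit false

namespace Pool.Agent.KServer.NU

open Finset

universe u

variable {V : Type u} [DecidableEq V] [Fintype V] {D : V → V → ℝ} {k : ℕ} {W : Finset V → ℝ}

omit [Fintype V] in
private theorem xc_card {X : Finset V} {a b : V} (ha : a ∈ X) (hb : b ∉ X) :
    (insert b (X.erase a)).card = X.card := by
  rw [card_insert_of_notMem (fun h => hb (mem_of_mem_erase h)), card_erase_of_mem ha]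
  have := card_pos.2 ⟨a, ha⟩
  omega

theorem xc_one {δ : ℝ} (hW : FW D k W) (hV : k + 1 ≤ Fintype.card V) {Z X₁ : Finset V}
    {r p u : V} (hrZ : r ∉ Z) (hpr : p ≠ r) (hp : p ∉ Z) (hZ : Z.card + 1 ≤ k) (hu : u ∈ Z)
    (hF : aa k W (insert r (Z.erase u)) p + δ ≤ aa k W Z p) (h₁ : X₁.card = k)
    (hX : Z ⊆ X₁) : mu k W + δ ≤ W X₁ := by
  have hcZ : (insert r (Z.erase u)).card ≤ k := by
    rw [xc_card hu hrZ]
    omega
  have hpZ : p ∉ insert r (Z.erase u) := by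
    rw [mem_insert, not_or]
    exact ⟨hpr, fun h => hp (mem_of_mem_erase h)⟩
  obtain ⟨X₂, h₂, -, hp₂, hα⟩ := exists_aa (W := W) hV hcZ hpZ
  rw [hα] at hF
  by_cases hp₁ : p ∈ X₁
  · obtain ⟨v, hv₂, hv₁, hex⟩ := hW.exch X₁ X₂ p h₁ h₂ hp₁ hp₂
    have hvp : p ≠ v := by
      rintro rfl
      exact hp₂ hv₂
    have e1 : aa k W Z p ≤ W (insert v (X₁.erase p)) := by
      apply aa_le
      · rw [xc_card hp₁ hv₁, h₁]
      · intro z hz
        refine mem_insert_of_mem (mem_erase.2 ⟨?_, hX hz⟩)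
        rintro rfl
        exact hp hz
      · rw [mem_insert, not_or]
        exact ⟨hvp, notMem_erase _ _⟩
    have e2 : mu k W ≤ W (insert p (X₂.erase v)) := by
      apply mu_le
      rw [xc_card hv₂ hp₂, h₂]
    linarith
  · have e1 : aa k W Z p ≤ W X₁ := aa_le h₁ hX hp₁
    have e2 : mu k W ≤ W X₂ := mu_le h₂
    linarith

theorem xc_two {δ : ℝ} (hW : FW D k W) (hV : k + 1 ≤ Fintype.card V) {Z X₁ : Finset V}
    {r p u v : V} (hrZ : r ∉ Z) (hpr : p ≠ r) (hp : p ∉ Z) (hZ : Z.card + 1 ≤ k) (hu : u ∈ Z)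
    (hF : aa k W (insert r (Z.erase u)) p + δ ≤ aa k W Z p) (h₁ : X₁.card = k) (hv : v ∈ Z)
    (hX : insert r (Z.erase v) ⊆ X₁) (hp₁ : p ∈ X₁) (hv₁ : v ∉ X₁) :
    mu k W + δ ≤ W X₁ ∨
      aa k W (insert r (Z.erase v)) p + mu k W ≤ aa k W (insert r (Z.erase u)) p + W X₁ := by
  have hcZ : (insert r (Z.erase u)).card ≤ k := by
    rw [xc_card hu hrZ]
    omega
  have hpZ : p ∉ insert r (Z.erase u) := by
    rw [mem_insert, not_or]
    exact ⟨hpr, fun h => hp (mem_of_mem_erase h)⟩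
  obtain ⟨X₂, h₂, -, hp₂, hα⟩ := exists_aa (W := W) hV hcZ hpZ
  rw [hα] at hF ⊢
  obtain ⟨w, hw₂, hw₁, hex⟩ := hW.exch X₁ X₂ p h₁ h₂ hp₁ hp₂
  have hwp : p ≠ w := by
    rintro rfl
    exact hp₂ hw₂
  have e2 : mu k W ≤ W (insert p (X₂.erase w)) := by
    apply mu_le
    rw [xc_card hw₂ hp₂, h₂]
  right
  have e1 : aa k W (insert r (Z.erase v)) p ≤ W (insert w (X₁.erase p)) := by
    apply aa_le
    · rw [xc_card hp₁ hw₁, h₁]
    · intro z hz
      refine mem_insert_of_mem (mem_erase.2 ⟨?_, hX hz⟩)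
      rintro rfl
      rcases mem_insert.1 hz with h | h
      · exact hpr h
      · exact hp (mem_of_mem_erase h)
    · rw [mem_insert, not_or]
      exact ⟨hwp, notMem_erase _ _⟩
  linarith

end Pool.Agent.KServer.NU
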