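import Pool.Agent.Work.MP_fe875b_lc.NU.FO
import Pool.Agent.Work.MP_fe875b_lc.NU.Ex
import Pool.Agent.Work.MP_fe875b_lc.NU.Ca
import Pool.Agent.Work.MP_fe875b_lc.NU.Xc

/-! # Module KeyA (M-L): a list without the last request can be replaced by one ending with it

PROOF. `K = k (k + 1) / 2`. By `PhiL_bounds`, `PhiL t ≤ PhiL l` as soon as `PL t ≤ PL l - ε K`. `l = x :: l'`.
If `FOall r l`: `exact_alpha`, `t = l'`. Otherwise `l = l₁ ++ x :: l₂` with the first option false, `Z = l₂.toFinset`, `|Z| + 1 ≤ k`, and `fo_aa` gives `u ∈ Z`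
with (F) `α + 1 - k ε ≤ aa Z x`, `α = aa (insert r (Z.erase u)) x`. `S = l.toFinset`, `RSup` gives `m ∈ S`, `X₁ = insert r (S.erase m)`, `W X₁ + 1 ≤ W S`.
`q = W X₁ - mu`. (B) `cand_B` (`t =` tail of `l`) is good if `q ≥ ε K + (k + 1) ε`. (A) for `m ∈ l₂`, `l₂ = s₂ ++ m :: l₃`, `cand_A` for `(l₁ ++ x :: s₂) ++ m :: l₃` with
`aa Z x - aa (insert r (Z.erase m)) x ≥ ε K + k ε` is good.
* `m ∉ Z`: `xc_one` (`Z ⊆ X₁`, `δ = 1 - k ε`) gives `q ≥ 1 - k ε`: (B).
* `m = u`: (A) by (F).
* `m ∈ Z`, `m ≠ u`: `xc_two` with `v = m` (`x ∈ X₁` as `x ≠ m`, `m ∉ X₁`): either `q ≥ 1 - k ε`: (B), or `aa (insert r (Z.erase m)) x ≤ α + q`, so the difference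
  in (A) is `≥ 1 - k ε - q`: if `q ≥ 1/2` use (B), otherwise (A).
All inequalities from `ε (K + 2 k + 1) ≤ 1/3`. -/

set_option autoImplicit false

namespace Pool.Agent.KServer.NU

open Finset

universe u

variable {V : Type u} [DecidableEq V] [Fintype V] {D : V → V → ℝ} {k : ℕ} {W : Finset V → ℝ}

omit [Fintype V] [DecidableEq V] in
private theorem ok_drop {A B : List V} {m r : V} (h : OK k (A ++ m :: B)) (hr : r ∉ A ++ m :: B) :
    OK k (A ++ B ++ [r]) := by
  obtain ⟨h1, h2⟩ := h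
  have hp : (A ++ m :: B).Perm (m :: (A ++ B)) := List.perm_middle
  have h3 : (m :: (A ++ B)).Nodup := hp.nodup_iff.1 h1
  have h4 : r ∉ A ++ B := by
    intro h
    apply hr
    rw [hp.mem_iff]
    exact List.mem_cons_of_mem _ h
  constructor
  · have hp2 : (A ++ B ++ [r]).Perm (r :: (A ++ B)) := List.perm_append_singleton r (A ++ B)
    rw [hp2.nodup_iff, List.nodup_cons]
    exact ⟨h4, (List.nodup_cons.1 h3).2⟩
  · simp only [List.length_append, List.length_cons, List.length_nil] at h2 ⊢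
    omega

private theorem good {ε : ℝ} (hD : Near D ε) (hε : 0 ≤ ε) (hW : FW D k W)
    (hV : k + 1 ≤ Fintype.card V) {t l : List V} (ht : OK k t) (hl : OK k l)
    (h : PL k W t ≤ PL k W l - ε * (k * (k + 1) / 2)) : PhiL D k W t ≤ PhiL D k W l := by
  have h1 := (PhiL_bounds hD hε hW hV ht).2
  have h2 := (PhiL_bounds hD hε hW hV hl).1
  have h3 : (1 + ε) * ((k : ℝ) * (k + 1) / 2) = k * (k + 1) / 2 + ε * (k * (k + 1) / 2) := by ring
  linarith

theorem keyA {ε : ℝ} (hD : Near D ε) (hε : 0 ≤ ε)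
    (hε' : ε * (k * (k + 1) / 2 + 2 * k + 1) ≤ 1 / 3) (hk : 0 < k) (hW : FW D k W) {r : V}
    (hr : RSup D k W r) (hV : k + 1 ≤ Fintype.card V) {l : List V} (hl : OK k l) (hrl : r ∉ l) :
    ∃ t : List V, OK k (t ++ [r]) ∧ PhiL D k W (t ++ [r]) ≤ PhiL D k W l := by
  have hk0 : (0 : ℝ) ≤ k := Nat.cast_nonneg k
  have e1 : 0 ≤ ε * k := mul_nonneg hε hk0
  have e2 : 0 ≤ ε * ((k : ℝ) * (k + 1) / 2) := mul_nonneg hε (by positivity)
  have e3 : ε * ((k : ℝ) * (k + 1) / 2) + 2 * (ε * k) + ε ≤ 1 / 3 := by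
    have : ε * ((k : ℝ) * (k + 1) / 2) + 2 * (ε * k) + ε =
      ε * (k * (k + 1) / 2 + 2 * k + 1) := by ring
    linarith
  by_cases hfo : FOall D k W r l
  · obtain ⟨x, l', rfl⟩ : ∃ x l', l = x :: l' := by
      cases l with
      | nil =>
        have h := hl.2
        simp only [List.length_nil] at h
        omega
      | cons x l' => exact ⟨x, l', rfl⟩
    have h := ok_drop (A := []) (m := x) (B := l') (r := r) hl hrl
    exact ⟨l', h, exact_alpha hl hrl hfo⟩
  have hfo2 : ∃ (l₁ : List V) (x : V) (l₂ : List V), l = l₁ ++ x :: l₂ ∧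
      ¬ TT D k W (insert r l₂.toFinset) x - D x r ≤ TT D k W l₂.toFinset x := by
    by_contra hcon
    push Not at hcon
    exact hfo (fun l₁ x l₂ h => hcon l₁ x l₂ h)
  obtain ⟨l₁, x, l₂, hs, hn⟩ := hfo2
  have hnd : (l₁ ++ x :: l₂).Nodup := hs ▸ hl.1
  have hlen : (l₁ ++ x :: l₂).length = k := hs ▸ hl.2
  have hnd2 : (x :: l₂).Nodup := (List.nodup_append.1 hnd).2.1
  have hxl : x ∉ l₂ := (List.nodup_cons.1 hnd2).1
  have hl₂ : l₂.Nodup := (List.nodup_cons.1 hnd2).2
  have hrl₂ : r ∉ l₂ := fun h => hrl (by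
    rw [hs]
    exact List.mem_append_right _ (List.mem_cons_of_mem _ h))
  have hxr : x ≠ r := fun h => hrl (by
    rw [hs, ← h]
    exact List.mem_append_right _ List.mem_cons_self)
  set Z := l₂.toFinset with hZdef
  have hxZ : x ∉ Z := by
    rw [hZdef, List.mem_toFinset]
    exact hxl
  have hrZ : r ∉ Z := by
    rw [hZdef, List.mem_toFinset]
    exact hrl₂
  have hZc : Z.card + 1 ≤ k := by
    rw [hZdef, List.toFinset_card_of_nodup hl₂]
    simp only [List.length_append, List.length_cons] at hlen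
    omega
  obtain ⟨u, huZ, hF⟩ := fo_aa hD hε hW hr hV hrZ hxr hxZ hZc hn
  have hF' : aa k W (insert r (Z.erase u)) x + (1 - k * ε) ≤ aa k W Z x := by linarith
  have hke : (k : ℝ) * ε = ε * k := mul_comm _ _
  set S := l.toFinset with hSdef
  have hSc : S.card = k := by
    rw [hSdef, List.toFinset_card_of_nodup hl.1]
    exact hl.2
  have hrS : r ∉ S := by
    rw [hSdef, List.mem_toFinset]
    exact hrl
  obtain ⟨m, hmS, hm⟩ := hr S hSc hrS
  have hmr : m ≠ r := fun h => hrS (h ▸ hmS)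
  have hm1 : W (insert r (S.erase m)) + 1 ≤ W S := by
    have := hD.lo m r hmr
    linarith
  have hX₁c : (insert r (S.erase m)).card = k := by
    rw [Finset.card_insert_of_notMem (fun h => hrS (Finset.mem_of_mem_erase h)),
      Finset.card_erase_of_mem hmS, hSc]
    omega
  have hZS : Z ⊆ S := by
    intro z hz
    rw [hZdef, List.mem_toFinset] at hz
    rw [hSdef, List.mem_toFinset, hs]
    exact List.mem_append_right _ (List.mem_cons_of_mem _ hz)
  have hxS : x ∈ S := by
    rw [hSdef, List.mem_toFinset, hs]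
    exact List.mem_append_right _ List.mem_cons_self
  -- the candidate B
  have candB : ε * ((k : ℝ) * (k + 1) / 2) + ε * k + ε ≤ W (insert r (S.erase m)) - mu k W →
      ∃ t : List V, OK k (t ++ [r]) ∧ PhiL D k W (t ++ [r]) ≤ PhiL D k W l := by
    intro hq
    obtain ⟨y, l', hy⟩ : ∃ y l', l = y :: l' := by
      cases l with
      | nil =>
        have h := hl.2
        simp only [List.length_nil] at h
        omega
      | cons y l' => exact ⟨y, l', rfl⟩
    have hl' : OK k (y :: l') := hy ▸ hl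
    have hrl' : r ∉ y :: l' := hy ▸ hrl
    have hok := ok_drop (A := []) (m := y) (B := l') (r := r) hl' hrl'
    refine ⟨l', hok, ?_⟩
    have hB := cand_B hD hε hW hr hV hl' hrl'
    rw [← hy] at hB
    refine good hD hε hW hV hok hl ?_
    have h5 : ((k : ℝ) + 1) * ε = ε * k + ε := by ring
    have h6 : PL k W (l' ++ [r]) ≤ PL k W l - (W S - mu k W - 1) + (ε * k + ε) := by
      rw [← h5]
      exact hB
    change PL k W (l' ++ [r]) ≤ _
    linarith
  -- the candidate A
  have candA : m ∈ Z → ε * ((k : ℝ) * (k + 1) / 2) + ε * k ≤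
      aa k W Z x - aa k W (insert r (Z.erase m)) x →
      ∃ t : List V, OK k (t ++ [r]) ∧ PhiL D k W (t ++ [r]) ≤ PhiL D k W l := by
    intro hmZ hq
    rw [hZdef, List.mem_toFinset] at hmZ
    obtain ⟨s₂, l₃, hs₂⟩ := List.append_of_mem hmZ
    have hs' : l = (l₁ ++ x :: s₂) ++ m :: l₃ := by
      rw [hs, hs₂]
      simp only [List.append_assoc, List.cons_append]
    have hl' : OK k ((l₁ ++ x :: s₂) ++ m :: l₃) := hs' ▸ hl
    have hrl' : r ∉ (l₁ ++ x :: s₂) ++ m :: l₃ := hs' ▸ hrl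
    have hok := ok_drop hl' hrl'
    have hA := cand_A hD hε hW hr hV hl' hrl' (by rw [← hs']; exact hm1) rfl
    refine ⟨(l₁ ++ x :: s₂) ++ l₃, hok, ?_⟩
    rw [← hs', ← hs₂] at hA
    refine good hD hε hW hV hok hl ?_
    linarith
  by_cases hmZ : m ∈ Z
  · by_cases hmu : m = u
    · refine candA hmZ ?_
      rw [hmu]
      linarith
    · have hsub : insert r (Z.erase m) ⊆ insert r (S.erase m) :=
        Finset.insert_subset_insert _ (Finset.erase_subset_erase _ hZS)
      have hxm : x ≠ m := fun h => hxZ (h ▸ hmZ)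
      have hx₁ : x ∈ insert r (S.erase m) :=
        Finset.mem_insert_of_mem (Finset.mem_erase.2 ⟨hxm, hxS⟩)
      have hm₁ : m ∉ insert r (S.erase m) := by
        rw [Finset.mem_insert, not_or]
        exact ⟨hmr, Finset.notMem_erase m S⟩
      rcases xc_two hW hV hrZ hxr hxZ hZc huZ hF' hX₁c hmZ hsub hx₁ hm₁ with h | h
      · exact candB (by linarith)
      · by_cases hq : 1 / 2 ≤ W (insert r (S.erase m)) - mu k W
        · exact candB (by linarith)
        · push Not at hq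
          refine candA hmZ ?_
          linarith
  · have hsub : Z ⊆ insert r (S.erase m) := by
      intro z hz
      exact Finset.mem_insert_of_mem (Finset.mem_erase.2 ⟨fun h => hmZ (h ▸ hz), hZS hz⟩)
    have h := xc_one hW hV hrZ hxr hxZ hZc huZ hF' hX₁c hsub
    exact candB (by linarith)

end Pool.Agent.KServer.NU
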