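import Pool.Agent.Work.MP_fe875b_lc.NU.FO
import Pool.Agent.Work.MP_fe875b_lc.NU.Ex
import Pool.Agent.Work.MP_fe875b_lc.NU.Ca
import Pool.Agent.Work.MP_fe875b_lc.NU.Xc

/-! # Module KeyB (M-L): a minimal list with the last request in the middle

PROOF. `K = k (k + 1) / 2`, `l = l₁ ++ r :: l₂`. By `PhiL_bounds`, `PhiL t ≤ PhiL l` if `PL t ≤ PL l - ε K`, and `PhiL t < PhiL l` (impossible by `hmin`) if
`PL t < PL l - ε K`. If `FOall r l₂`: `exact_beta`, `t = l₁ ++ l₂`. Otherwise `l₂ = s₁ ++ x :: s₂`, `Z = s₂.toFinset` (`|Z| + 1 ≤ k`), `fo_aa`: `u ∈ Z`,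
(F) `α + 1 - k ε ≤ aa Z x`, `α = aa (insert r (Z.erase u)) x`. Let `X₃` be the set of `exists_aa` for `(l₂.toFinset, r)`; `RSup` gives `v ∈ X₃`,
`X₁ = insert r (X₃.erase v)`, `W X₁ + 1 ≤ W X₃ = aa l₂ r`. `q = W X₁ - mu`. (C) `cand_C` (`t = l₁ ++ l₂`) is good if `q ≥ ε K + k ε`.
(D) for `w ∈ Z`, `s₂ = l₃ ++ w :: l₄`, `cand_D` for `(l₁ ++ r :: s₁) ++ x :: (l₃ ++ w :: l₄)` is impossible if
`aa Z x - aa (Z.erase w) x + mu - aa (insert x (Z.erase w)) w > ε K`.
* `v ∉ Z`: `Z ⊆ X₁`, `xc_one`: `q ≥ 1 - k ε`: (C).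
* `v = u`: `aa (Z.erase u) x ≤ α` (`aa_mono`), `aa (insert x (Z.erase u)) u ≤ W X₁` (`X₁` contains `l₂` without `u`): the difference in (D) for `w = u` is
  `≥ 1 - k ε - q`: if `q ≥ 1/2` use (C), otherwise (D).
* `v ∈ Z`, `v ≠ u`: `xc_two` (`x ∈ X₁`, `v ∉ X₁`): either `q ≥ 1 - k ε`: (C); or `aa (Z.erase v) x ≤ aa (insert r (Z.erase v)) x ≤ α + q`, `aa (insert x (Z.erase v)) v ≤ W X₁`:
  the difference in (D) for `w = v` is `≥ 1 - k ε - 2 q`: if `q ≥ 1/3` use (C), otherwise (D).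
All inequalities from `ε (K + 2 k + 1) ≤ 1/3`. -/

set_option autoImplicit false

namespace Pool.Agent.KServer.NU

open Finset

universe u

variable {V : Type u} [DecidableEq V] [Fintype V] {D : V → V → ℝ} {k : ℕ} {W : Finset V → ℝ}

omit [Fintype V] [DecidableEq V] in
private theorem ok_mid {A B : List V} {r : V} (h : OK k (A ++ r :: B)) : OK k (A ++ B ++ [r]) := by
  obtain ⟨h1, h2⟩ := h
  have hp : (A ++ r :: B).Perm (r :: (A ++ B)) := List.perm_middle
  have hp2 : (A ++ B ++ [r]).Perm (r :: (A ++ B)) := List.perm_append_singleton r (A ++ B)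
  constructor
  · rw [hp2.nodup_iff, ← hp.nodup_iff]
    exact h1
  · simp only [List.length_append, List.length_cons, List.length_nil] at h2 ⊢
    omega

omit [Fintype V] [DecidableEq V] in
private theorem ok_move {A B C : List V} {x u : V} (h : OK k (A ++ x :: (B ++ u :: C))) :
    OK k (A ++ u :: x :: (B ++ C)) := by
  obtain ⟨h1, h2⟩ := h
  have hp : (x :: (B ++ u :: C)).Perm (u :: x :: (B ++ C)) := by
    have e1 : (B ++ u :: C).Perm (u :: (B ++ C)) := List.perm_middle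
    exact (e1.cons x).trans (List.Perm.swap u x (B ++ C))
  have hp2 : (A ++ x :: (B ++ u :: C)).Perm (A ++ u :: x :: (B ++ C)) := hp.append_left A
  constructor
  · rw [← hp2.nodup_iff]
    exact h1
  · rw [← hp2.length_eq]
    exact h2

private theorem good {ε : ℝ} (hD : Near D ε) (hε : 0 ≤ ε) (hW : FW D k W)
    (hV : k + 1 ≤ Fintype.card V) {t l : List V} (ht : OK k t) (hl : OK k l)
    (h : PL k W t ≤ PL k W l - ε * (k * (k + 1) / 2)) : PhiL D k W t ≤ PhiL D k W l := by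
  have h1 := (PhiL_bounds hD hε hW hV ht).2
  have h2 := (PhiL_bounds hD hε hW hV hl).1
  have h3 : (1 + ε) * ((k : ℝ) * (k + 1) / 2) = k * (k + 1) / 2 + ε * (k * (k + 1) / 2) := by ring
  linarith

private theorem good' {ε : ℝ} (hD : Near D ε) (hε : 0 ≤ ε) (hW : FW D k W)
    (hV : k + 1 ≤ Fintype.card V) {t l : List V} (ht : OK k t) (hl : OK k l)
    (h : PL k W t < PL k W l - ε * (k * (k + 1) / 2)) : PhiL D k W t < PhiL D k W l := by
  have h1 := (PhiL_bounds hD hε hW hV ht).2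
  have h2 := (PhiL_bounds hD hε hW hV hl).1
  have h3 : (1 + ε) * ((k : ℝ) * (k + 1) / 2) = k * (k + 1) / 2 + ε * (k * (k + 1) / 2) := by ring
  linarith

theorem keyB {ε : ℝ} (hD : Near D ε) (hε : 0 ≤ ε)
    (hε' : ε * (k * (k + 1) / 2 + 2 * k + 1) ≤ 1 / 3) (hk : 0 < k) (hW : FW D k W) {r : V}
    (hr : RSup D k W r) (hV : k + 1 ≤ Fintype.card V) {l₁ l₂ : List V}
    (hl : OK k (l₁ ++ r :: l₂))
    (hmin : ∀ l : List V, OK k l → PhiL D k W (l₁ ++ r :: l₂) ≤ PhiL D k W l) :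
    ∃ t : List V, OK k (t ++ [r]) ∧
      PhiL D k W (t ++ [r]) ≤ PhiL D k W (l₁ ++ r :: l₂) := by
  have hk0 : (0 : ℝ) ≤ k := Nat.cast_nonneg k
  have e1 : 0 ≤ ε * k := mul_nonneg hε hk0
  have e2 : 0 ≤ ε * ((k : ℝ) * (k + 1) / 2) := mul_nonneg hε (by positivity)
  have e3 : ε * ((k : ℝ) * (k + 1) / 2) + 2 * (ε * k) + ε ≤ 1 / 3 := by
    have : ε * ((k : ℝ) * (k + 1) / 2) + 2 * (ε * k) + ε =
      ε * (k * (k + 1) / 2 + 2 * k + 1) := by ring
    linarith
  have hok := ok_mid hl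
  by_cases hfo : FOall D k W r l₂
  · exact ⟨l₁ ++ l₂, hok, exact_beta hV hl hfo⟩
  have hfo2 : ∃ (s₁ : List V) (x : V) (s₂ : List V), l₂ = s₁ ++ x :: s₂ ∧
      ¬ TT D k W (insert r s₂.toFinset) x - D x r ≤ TT D k W s₂.toFinset x := by
    by_contra hcon
    push Not at hcon
    exact hfo (fun l₁ x l₂ h => hcon l₁ x l₂ h)
  obtain ⟨s₁, x, s₂, hs, hn⟩ := hfo2
  have hnd : (r :: l₂).Nodup := (List.nodup_append.1 hl.1).2.1
  have hrl₂ : r ∉ l₂ := (List.nodup_cons.1 hnd).1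
  have hnl₂ : l₂.Nodup := (List.nodup_cons.1 hnd).2
  have hnl₂' : (s₁ ++ x :: s₂).Nodup := hs ▸ hnl₂
  have hnx : (x :: s₂).Nodup := (List.nodup_append.1 hnl₂').2.1
  have hxs : x ∉ s₂ := (List.nodup_cons.1 hnx).1
  have hns : s₂.Nodup := (List.nodup_cons.1 hnx).2
  have hxl₂ : x ∈ l₂ := by
    rw [hs]
    exact List.mem_append_right _ List.mem_cons_self
  have hxr : x ≠ r := fun h => hrl₂ (h ▸ hxl₂)
  have hsl : ∀ z ∈ s₂, z ∈ l₂ := by
    intro z hz
    rw [hs]
    exact List.mem_append_right _ (List.mem_cons_of_mem _ hz)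
  set Z := s₂.toFinset with hZdef
  have hxZ : x ∉ Z := by
    rw [hZdef, List.mem_toFinset]
    exact hxs
  have hrZ : r ∉ Z := by
    rw [hZdef, List.mem_toFinset]
    exact fun h => hrl₂ (hsl r h)
  have hlen := hl.2
  have hlen2 : l₂.length + 1 ≤ k := by
    simp only [List.length_append, List.length_cons] at hlen
    omega
  have hZc : Z.card + 1 ≤ k := by
    rw [hZdef, List.toFinset_card_of_nodup hns]
    have : l₂.length = s₁.length + (s₂.length + 1) := by
      rw [hs]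
      simp only [List.length_append, List.length_cons]
    omega
  obtain ⟨u, huZ, hF⟩ := fo_aa hD hε hW hr hV hrZ hxr hxZ hZc hn
  have hF' : aa k W (insert r (Z.erase u)) x + (1 - k * ε) ≤ aa k W Z x := by linarith
  have hke : (k : ℝ) * ε = ε * k := mul_comm _ _
  have hrT : r ∉ l₂.toFinset := by
    rw [List.mem_toFinset]
    exact hrl₂
  have hTc : l₂.toFinset.card ≤ k := by
    rw [List.toFinset_card_of_nodup hnl₂]
    omega
  obtain ⟨X₃, hX₃c, hlX₃, hrX₃, hX₃⟩ := exists_aa (W := W) hV hTc hrT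
  obtain ⟨v, hvX, hv⟩ := hr X₃ hX₃c hrX₃
  have hvr : v ≠ r := fun h => hrX₃ (h ▸ hvX)
  have hv1 : W (insert r (X₃.erase v)) + 1 ≤ aa k W l₂.toFinset r := by
    have := hD.lo v r hvr
    linarith
  have hX₁c : (insert r (X₃.erase v)).card = k := by
    rw [Finset.card_insert_of_notMem (fun h => hrX₃ (Finset.mem_of_mem_erase h)),
      Finset.card_erase_of_mem hvX, hX₃c]
    omega
  have hZX : Z ⊆ X₃ := by
    intro z hz
    rw [hZdef, List.mem_toFinset] at hz
    apply hlX₃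
    rw [List.mem_toFinset]
    exact hsl z hz
  have hxX : x ∈ X₃ := by
    apply hlX₃
    rw [List.mem_toFinset]
    exact hxl₂
  -- the candidate C
  have candC : ε * ((k : ℝ) * (k + 1) / 2) + ε * k ≤ W (insert r (X₃.erase v)) - mu k W →
      ∃ t : List V, OK k (t ++ [r]) ∧
        PhiL D k W (t ++ [r]) ≤ PhiL D k W (l₁ ++ r :: l₂) := by
    intro hq
    refine ⟨l₁ ++ l₂, hok, good hD hε hW hV hok hl ?_⟩
    have hC := cand_C hD hε hW hr hV hl
    linarith
  -- the candidate D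
  have candD : ∀ w ∈ Z, ε * ((k : ℝ) * (k + 1) / 2) < aa k W Z x - aa k W (Z.erase w) x +
      mu k W - aa k W (insert x (Z.erase w)) w → False := by
    intro w hw hq
    rw [hZdef, List.mem_toFinset] at hw
    obtain ⟨l₃, l₄, hl₃⟩ := List.append_of_mem hw
    have hs' : l₁ ++ r :: l₂ = (l₁ ++ r :: s₁) ++ x :: (l₃ ++ w :: l₄) := by
      rw [hs, hl₃]
      simp only [List.append_assoc, List.cons_append]
    have hl' : OK k ((l₁ ++ r :: s₁) ++ x :: (l₃ ++ w :: l₄)) := hs' ▸ hl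
    have hD' := cand_D (W := W) hV hl'
    rw [← hs', ← hl₃] at hD'
    have h1 := good' hD hε hW hV (ok_move hl') hl (by linarith)
    exact absurd (hmin _ (ok_move hl')) (not_le.2 h1)
  have hmono : ∀ w ∈ Z, aa k W (Z.erase w) x ≤ aa k W (insert r (Z.erase w)) x := by
    intro w hw
    refine aa_mono hV (Finset.subset_insert _ _) ?_ ?_
    · have := Finset.card_insert_le r (Z.erase w)
      have h2 := Finset.card_erase_of_mem hw
      omega
    · rw [Finset.mem_insert, not_or]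
      exact ⟨hxr, fun h => hxZ (Finset.mem_of_mem_erase h)⟩
  by_cases hvZ : v ∈ Z
  · have hxv : x ≠ v := fun h => hxZ (h ▸ hvZ)
    have hx₁ : x ∈ insert r (X₃.erase v) :=
      Finset.mem_insert_of_mem (Finset.mem_erase.2 ⟨hxv, hxX⟩)
    have hv₁ : v ∉ insert r (X₃.erase v) := by
      rw [Finset.mem_insert, not_or]
      exact ⟨hvr, Finset.notMem_erase v X₃⟩
    have hins : aa k W (insert x (Z.erase v)) v ≤ W (insert r (X₃.erase v)) := by
      refine aa_le hX₁c ?_ hv₁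
      rw [Finset.insert_subset_iff]
      exact ⟨hx₁, (Finset.erase_subset_erase _ hZX).trans (Finset.subset_insert _ _)⟩
    by_cases hvu : v = u
    · by_cases hq : 1 / 2 ≤ W (insert r (X₃.erase v)) - mu k W
      · exact candC (by linarith)
      · push Not at hq
        refine (candD v hvZ ?_).elim
        have h1 := hmono v hvZ
        rw [hvu] at h1 hins hq ⊢
        linarith
    · have hsub : insert r (Z.erase v) ⊆ insert r (X₃.erase v) :=
        Finset.insert_subset_insert _ (Finset.erase_subset_erase _ hZX)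
      rcases xc_two hW hV hrZ hxr hxZ hZc huZ hF' hX₁c hvZ hsub hx₁ hv₁ with h | h
      · exact candC (by linarith)
      · by_cases hq : 1 / 3 ≤ W (insert r (X₃.erase v)) - mu k W
        · exact candC (by linarith)
        · push Not at hq
          refine (candD v hvZ ?_).elim
          have h1 := hmono v hvZ
          linarith
  · have hsub : Z ⊆ insert r (X₃.erase v) := by
      intro z hz
      exact Finset.mem_insert_of_mem (Finset.mem_erase.2 ⟨fun h => hvZ (h ▸ hz), hZX hz⟩)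
    have h := xc_one hW hV hrZ hxr hxZ hZc huZ hF' hX₁c hsub
    exact candC (by linarith)

end Pool.Agent.KServer.NU
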