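import Pool.Agent.Work.MP_fe875b_lc.NU.Defs

/-! # Module Sw (M-L): work functions on tuples and on sets

PROOF. `sw_eq`: the enumeration `i ↦ (equivFinOfCardEq h).symm i` of `univ.image f` and `f` differ by a permutation of `Fin k`
(both are injective with the same image); `hs`. `exists_enum`: this enumeration. `fw_sw`, `lip`: `X = univ.image f`, `f i = x`, `sw_eq` for `Function.update f i y`.
`exch`: `X = univ.image f`, `Y = univ.image g`, `f`, `g` injective, `π` from `qc f g`; `h i = g (π i)` is injective with image `Y`. Let `f i₀ = x ∉ Y`. Call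
`I : Finset (Fin k)` closed if `i₀ ∈ I` and for `i ∈ I` with `h i ∈ X`, the `j` with `f j = h i` is in `I`. `univ` is closed; let `I` be a closed set of
minimal cardinality (or the intersection of all closed sets). Let `A = {i ∈ I | h i ∈ X}`. The map `A → I`, `i ↦ j`, is injective, its image does not contain `i₀` (`f i₀ ∉ Y`) and
contains all other `j ∈ I` (otherwise `I.erase j` is closed). So `|A| = |I| - 1`: there is exactly one `e ∈ I` with `h e ∉ X`; `v = h e`.
The image of `I.piecewise h f` is `insert v (X.erase x)` and the image of `I.piecewise f h` is `insert x (Y.erase v)` (both functions are injective); `qc` for this `I`.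
`isUpd_sw`: `mem`: `upd_of_mem`; `ex`: `exists_upd`, `Function.update f i r` is injective as `r ∉ X`; `le`: `upd_le`; `hD.comm`. -/

set_option autoImplicit false

namespace Pool.Agent.KServer.NU

open Finset

universe u

variable {V : Type u} [DecidableEq V] {D : V → V → ℝ} {k : ℕ} {w : (Fin k → V) → ℝ}

private theorem sw_perm {f g : Fin k → V} (hg : Function.Injective g)
    (h : univ.image g = univ.image f) : ∃ π : Equiv.Perm (Fin k), g = f ∘ π := by
  have h1 : ∀ i, ∃ j, f j = g i := by
    intro i
    have : g i ∈ univ.image f := by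
      rw [← h]
      exact mem_image_of_mem _ (mem_univ _)
    obtain ⟨j, _, hj⟩ := mem_image.1 this
    exact ⟨j, hj⟩
  choose p hp using h1
  have hp' : Function.Injective p := by
    intro a b hab
    apply hg
    rw [← hp a, ← hp b, hab]
  refine ⟨Equiv.ofBijective p (Finite.injective_iff_bijective.1 hp'), ?_⟩
  funext i
  exact (hp i).symm

private theorem sw_upd {f : Fin k → V} (hf : Function.Injective f) (i : Fin k) {y : V}
    (hy : y ∉ univ.image f) : Function.Injective (Function.update f i y) ∧
      univ.image (Function.update f i y) = insert y ((univ.image f).erase (f i)) := by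
  have hy' : ∀ j, f j ≠ y := fun j e => hy (e ▸ mem_image_of_mem _ (mem_univ _))
  constructor
  · intro a b hab
    by_cases ha : a = i
    · by_cases hb : b = i
      · rw [ha, hb]
      · rw [ha, Function.update_self, Function.update_of_ne hb] at hab
        exact absurd hab.symm (hy' b)
    · by_cases hb : b = i
      · rw [hb, Function.update_self, Function.update_of_ne ha] at hab
        exact absurd hab (hy' a)
      · rw [Function.update_of_ne ha, Function.update_of_ne hb] at hab
        exact hf hab
  · ext z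
    simp only [mem_image, mem_univ, true_and, mem_insert, mem_erase]
    constructor
    · rintro ⟨j, hj⟩
      by_cases hji : j = i
      · rw [hji, Function.update_self] at hj
        exact Or.inl hj.symm
      · rw [Function.update_of_ne hji] at hj
        refine Or.inr ⟨?_, j, hj⟩
        rw [← hj]
        exact fun e => hji (hf e)
    · rintro (hz | ⟨hz, j, hj⟩)
      · exact ⟨i, by rw [Function.update_self, hz]⟩
      · refine ⟨j, ?_⟩
        have hji : j ≠ i := by
          rintro rfl
          exact hz hj.symm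
        rw [Function.update_of_ne hji, hj]

theorem sw_eq (hs : ∀ (X : Fin k → V) (π : Equiv.Perm (Fin k)), w (X ∘ π) = w X)
    {f : Fin k → V} (hf : Function.Injective f) : sw w (univ.image f) = w f := by
  have h : (univ.image f).card = k := by
    rw [card_image_of_injective _ hf, card_univ, Fintype.card_fin]
  unfold sw
  rw [dif_pos h]
  obtain ⟨π, hπ⟩ := sw_perm (f := f) (g := fun i => (((univ.image f).equivFinOfCardEq h).symm i).1)
    (by
      intro a b hab
      exact ((univ.image f).equivFinOfCardEq h).symm.injective (Subtype.ext hab))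
    (by
      ext z
      simp only [mem_image, mem_univ, true_and]
      constructor
      · rintro ⟨i, hi⟩
        have := (((univ.image f).equivFinOfCardEq h).symm i).2
        rw [hi] at this
        simpa using this
      · intro hz
        have hz' : z ∈ univ.image f := by simpa using hz
        refine ⟨(univ.image f).equivFinOfCardEq h ⟨z, hz'⟩, ?_⟩
        rw [Equiv.symm_apply_apply])
  rw [hπ, hs]

theorem exists_enum {X : Finset V} (h : X.card = k) :
    ∃ f : Fin k → V, Function.Injective f ∧ univ.image f = X := by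
  refine ⟨fun i => ((X.equivFinOfCardEq h).symm i).1, ?_, ?_⟩
  · intro a b hab
    exact (X.equivFinOfCardEq h).symm.injective (Subtype.ext hab)
  · ext z
    simp only [mem_image, mem_univ, true_and]
    constructor
    · rintro ⟨i, hi⟩
      rw [← hi]
      exact ((X.equivFinOfCardEq h).symm i).2
    · intro hz
      refine ⟨X.equivFinOfCardEq h ⟨z, hz⟩, ?_⟩
      rw [Equiv.symm_apply_apply]

private theorem sw_inj {f : Fin k → V} {X : Finset V} (hX : X.card = k) (h : univ.image f = X) :
    Function.Injective f := by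
  have h1 : (univ.image f).card = (univ : Finset (Fin k)).card := by
    rw [h, hX, card_univ, Fintype.card_fin]
  have h2 := card_image_iff.1 h1
  intro a b hab
  exact h2 (by simp) (by simp) hab

private theorem sw_closed {f h : Fin k → V} (hf : Function.Injective f) (hh : Function.Injective h)
    (i₀ : Fin k) (hi₀ : ∀ i, h i ≠ f i₀) :
    ∃ I : Finset (Fin k), i₀ ∈ I ∧ (∀ i ∈ I, ∀ j, f j = h i → j ∈ I) ∧
      (∀ j ∈ I, j ≠ i₀ → ∃ i ∈ I, h i = f j) ∧
      ∃ e ∈ I, (∀ j, f j ≠ h e) ∧ ∀ i ∈ I, (∀ j, f j ≠ h i) → i = e := by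
  classical
  let S : Finset (Finset (Fin k)) := univ.filter fun I => i₀ ∈ I ∧ ∀ i ∈ I, ∀ j, f j = h i → j ∈ I
  have hS : S.Nonempty := ⟨univ, by
    simp only [S, mem_filter, mem_univ, true_and]
    exact fun _ _ _ _ => trivial⟩
  obtain ⟨I, hI, hmin⟩ := S.exists_min_image (fun I => I.card) hS
  have hI' := (mem_filter.1 hI).2
  have hc : ∀ j ∈ I, j ≠ i₀ → ∃ i ∈ I, h i = f j := by
    intro j hj hji
    by_contra hcon
    push Not at hcon
    have h1 : I.erase j ∈ S := by
      refine mem_filter.2 ⟨mem_univ _, mem_erase.2 ⟨hji.symm, hI'.1⟩, ?_⟩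
      intro i hi j' hj'
      have hi' := mem_of_mem_erase hi
      refine mem_erase.2 ⟨?_, hI'.2 i hi' j' hj'⟩
      rintro rfl
      exact hcon i hi' hj'.symm
    have h2 := hmin _ h1
    have h3 := card_erase_lt_of_mem hj
    have h4 : I.card ≤ (I.erase j).card := h2
    omega
  refine ⟨I, hI'.1, hI'.2, hc, ?_⟩
  have himg : (I.filter fun i => ∃ j, f j = h i).image h = (I.erase i₀).image f := by
    ext z
    simp only [mem_image, mem_filter, mem_erase]
    constructor
    · rintro ⟨i, ⟨hi, j, hj⟩, rfl⟩
      refine ⟨j, ⟨?_, hI'.2 i hi j hj⟩, hj⟩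
      rintro rfl
      exact hi₀ i hj.symm
    · rintro ⟨j, ⟨hj1, hj2⟩, rfl⟩
      obtain ⟨i, hi, hij⟩ := hc j hj2 hj1
      exact ⟨i, ⟨hi, j, hij.symm⟩, hij⟩
  have hcard : (I.filter fun i => ∃ j, f j = h i).card + 1 = I.card := by
    rw [← card_image_of_injective _ hh, himg, card_image_of_injective _ hf,
      card_erase_of_mem hI'.1]
    have : 0 < I.card := card_pos.2 ⟨i₀, hI'.1⟩
    omega
  have hsum := card_filter_add_card_filter_not (s := I) (fun i => ∃ j, f j = h i)
  have hone : (I.filter fun i => ¬ ∃ j, f j = h i).card = 1 := by omega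
  obtain ⟨e, he⟩ := card_eq_one.1 hone
  have he1 : e ∈ I.filter fun i => ¬ ∃ j, f j = h i := by
    rw [he]
    exact mem_singleton_self _
  obtain ⟨he2, he3⟩ := mem_filter.1 he1
  refine ⟨e, he2, fun j hj => he3 ⟨j, hj⟩, ?_⟩
  intro i hi hij
  have : i ∈ I.filter fun i => ¬ ∃ j, f j = h i := mem_filter.2 ⟨hi, fun ⟨j, hj⟩ => hij j hj⟩
  rw [he] at this
  exact mem_singleton.1 this

theorem fw_sw (hw : QWF D w) : FW D k (sw w) := by
  constructor
  · intro X x y hX hx hy
    obtain ⟨f, hf, rfl⟩ := exists_enum hX
    obtain ⟨i, _, rfl⟩ := mem_image.1 hx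
    obtain ⟨h1, h2⟩ := sw_upd hf i hy
    rw [← h2, sw_eq hw.symm h1, sw_eq hw.symm hf]
    exact hw.lip f i y
  · intro X Y x hX hY hx hxY
    obtain ⟨f, hf, hfX⟩ := exists_enum hX
    obtain ⟨g, hg, hgY⟩ := exists_enum hY
    obtain ⟨π, hπ⟩ := hw.qc f g
    have hh : Function.Injective (g ∘ π) := hg.comp π.injective
    have hhY : univ.image (g ∘ π) = Y := by
      rw [← hgY]
      ext z
      simp only [mem_image, mem_univ, true_and, Function.comp_apply]
      constructor
      · rintro ⟨i, hi⟩
        exact ⟨π i, hi⟩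
      · rintro ⟨i, hi⟩
        exact ⟨π.symm i, by rw [Equiv.apply_symm_apply, hi]⟩
    have hwg : w (g ∘ π) = w g := hw.symm g π
    generalize g ∘ π = h at hh hhY hπ hwg
    have memX : ∀ z, z ∈ X ↔ ∃ j, f j = z := by
      intro z
      rw [← hfX]
      simp
    have memY : ∀ z, z ∈ Y ↔ ∃ j, h j = z := by
      intro z
      rw [← hhY]
      simp
    obtain ⟨i₀, hi₀⟩ := (memX x).1 hx
    have hne : ∀ i, h i ≠ f i₀ := by
      intro i hi
      exact hxY ((memY x).2 ⟨i, hi.trans hi₀⟩)
    obtain ⟨I, ha, hb, hc, e, he, hd, hu⟩ := sw_closed hf hh i₀ hne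
    have hvY : h e ∈ Y := (memY _).2 ⟨e, rfl⟩
    have hvX : h e ∉ X := by
      rw [memX]
      rintro ⟨j, hj⟩
      exact hd j hj
    refine ⟨h e, hvY, hvX, ?_⟩
    have him1 : univ.image (I.piecewise h f) = insert (h e) (X.erase x) := by
      ext z
      rw [mem_insert, mem_erase, memX]
      simp only [mem_image, mem_univ, true_and]
      constructor
      · rintro ⟨i, hi⟩
        by_cases hiI : i ∈ I
        · rw [piecewise_eq_of_mem _ _ _ hiI] at hi
          by_cases hX' : ∃ j, f j = h i
          · obtain ⟨j, hj⟩ := hX'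
            refine Or.inr ⟨?_, j, hj.trans hi⟩
            rw [← hi, ← hi₀]
            exact hne i
          · left
            rw [← hi, hu i hiI (fun j hj => hX' ⟨j, hj⟩)]
        · rw [piecewise_eq_of_notMem _ _ _ hiI] at hi
          refine Or.inr ⟨?_, i, hi⟩
          rw [← hi, ← hi₀]
          intro hii
          rw [hf hii] at hiI
          exact hiI ha
      · rintro (hz | ⟨hz, j, hj⟩)
        · exact ⟨e, by rw [piecewise_eq_of_mem _ _ _ he, hz]⟩
        · have hji : j ≠ i₀ := by
            rintro rfl
            exact hz (hj.symm.trans hi₀)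
          by_cases hjI : j ∈ I
          · obtain ⟨i, hi, hij⟩ := hc j hjI hji
            exact ⟨i, by rw [piecewise_eq_of_mem _ _ _ hi, hij, hj]⟩
          · exact ⟨j, by rw [piecewise_eq_of_notMem _ _ _ hjI, hj]⟩
    have him2 : univ.image (I.piecewise f h) = insert x (Y.erase (h e)) := by
      ext z
      rw [mem_insert, mem_erase, memY]
      simp only [mem_image, mem_univ, true_and]
      constructor
      · rintro ⟨i, hi⟩
        by_cases hiI : i ∈ I
        · rw [piecewise_eq_of_mem _ _ _ hiI] at hi
          by_cases hii : i = i₀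
          · left
            rw [← hi, hii, hi₀]
          · right
            obtain ⟨i', hi', hij⟩ := hc i hiI hii
            refine ⟨?_, i', hij.trans hi⟩
            rw [← hi]
            exact hd i
        · rw [piecewise_eq_of_notMem _ _ _ hiI] at hi
          refine Or.inr ⟨?_, i, hi⟩
          rw [← hi]
          intro hie
          rw [hh hie] at hiI
          exact hiI he
      · rintro (hz | ⟨hz, j, hj⟩)
        · exact ⟨i₀, by rw [piecewise_eq_of_mem _ _ _ ha, hz, hi₀]⟩
        · by_cases hjI : j ∈ I
          · have hex : ∃ j', f j' = h j := by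
              by_contra hcon
              have := hu j hjI (fun j' hj' => hcon ⟨j', hj'⟩)
              rw [this] at hj
              exact hz hj.symm
            obtain ⟨j', hj'⟩ := hex
            exact ⟨j', by rw [piecewise_eq_of_mem _ _ _ (hb j hjI j' hj'), hj', hj]⟩
          · exact ⟨j, by rw [piecewise_eq_of_notMem _ _ _ hjI, hj]⟩
    have hc1 : (insert (h e) (X.erase x)).card = k := by
      rw [card_insert_of_notMem (fun hm => hvX (mem_of_mem_erase hm)), card_erase_of_mem hx, hX]
      have : 0 < X.card := card_pos.2 ⟨x, hx⟩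
      omega
    have hc2 : (insert x (Y.erase (h e))).card = k := by
      rw [card_insert_of_notMem (fun hm => hxY (mem_of_mem_erase hm)), card_erase_of_mem hvY, hY]
      have : 0 < Y.card := card_pos.2 ⟨_, hvY⟩
      omega
    rw [← him1, ← him2, sw_eq hw.symm (sw_inj hc1 him1), sw_eq hw.symm (sw_inj hc2 him2), ← hfX, ← hhY,
      sw_eq hw.symm hf, sw_eq hw.symm hh, hwg]
    exact hπ I

theorem isUpd_sw (hk : 0 < k) (hD : Metr D) (hw : QWF D w) (r : V) :
    IsUpd D k (sw w) (sw (upd D w r)) r := by
  have hs : ∀ (X : Fin k → V) (π : Equiv.Perm (Fin k)), upd D w r (X ∘ π) = upd D w r X :=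
    fun X π => upd_symm D hw.symm r X π
  constructor
  · intro X hX hr
    obtain ⟨f, hf, rfl⟩ := exists_enum hX
    obtain ⟨i, _, hi⟩ := mem_image.1 hr
    rw [sw_eq hs hf, sw_eq hw.symm hf]
    exact upd_of_mem hk hD hw hi
  · intro X hX hr
    obtain ⟨f, hf, rfl⟩ := exists_enum hX
    obtain ⟨i, hi⟩ := exists_upd hk D w r f
    obtain ⟨h1, h2⟩ := sw_upd hf i hr
    refine ⟨f i, mem_image_of_mem _ (mem_univ _), ?_⟩
    rw [← h2, sw_eq hs hf, sw_eq hw.symm h1, hi, hD.comm r]
  · intro X x hX hr hx
    obtain ⟨f, hf, rfl⟩ := exists_enum hX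
    obtain ⟨i, _, rfl⟩ := mem_image.1 hx
    obtain ⟨h1, h2⟩ := sw_upd hf i hr
    rw [← h2, sw_eq hs hf, sw_eq hw.symm h1, hD.comm _ r]
    exact upd_le D w r f i

end Pool.Agent.KServer.NU
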