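import Pool.Agent.Work.MP_fe875b_lc.NU.Tx

/-! # Module Us (M): updates on sets, duality

PROOF. `rsup`: `x` of `ex`, the set `insert r (X.erase x)` contains `r`: `mem`. `le_upd`: if `r ∈ X` equality; otherwise with `X'' = insert r (X.erase x)`,
`lip` for `X''`, `r`, `x`: `W X ≤ W X'' + D r x = W' X` (`insert x (X''.erase r) = X`).
`dual`: let `Y` be the set of `exists_TT` for `W'`, `Z = ∅`: `|Y| = k`, `TT W' ∅ r = W' Y - ∑_Y D y r`. If `r ∈ B`: `W' B = W B`, `W Y ≤ W' Y`, `TT_le`.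
If `r ∉ B`: if `r ∈ Y` let `Y₁ = Y`, `W' Y = W Y₁`, `Y₀ = Y.erase r`; if `r ∉ Y`: `y₀ ∈ Y` from `ex`, `Y₁ = insert r (Y.erase y₀)`, `W' Y = W Y₁ + D y₀ r`,
`Y₀ = Y.erase y₀ = Y₁.erase r`. `exch` for `Y₁, B, r`: `v ∈ B`, `v ∉ Y₁`, `W (insert v Y₀) + W (insert r (B.erase v)) ≤ W Y₁ + W B`.
`TT W ∅ r ≤ W (insert v Y₀) - ∑_{Y₀} D y r - D v r`, `W' B ≤ W (insert r (B.erase v)) + D v r`, `∑_Y D y r = ∑_{Y₀} D y r (+ D y₀ r)`. Add. -/

set_option autoImplicit false

namespace Pool.Agent.KServer.NU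

open Finset

universe u

variable {V : Type u} [DecidableEq V] {D : V → V → ℝ} {k : ℕ} {W W' : Finset V → ℝ}

private theorem us_card {X : Finset V} {x r : V} (hX : X.card = k) (hx : x ∈ X) (hr : r ∉ X) :
    (insert r (X.erase x)).card = k := by
  rw [Finset.card_insert_of_notMem (fun h => hr (Finset.mem_of_mem_erase h)),
    Finset.card_erase_add_one hx, hX]

theorem IsUpd.rsup {r : V} (hU : IsUpd D k W W' r) : RSup D k W' r := by
  intro X hX hr
  obtain ⟨x, hx, h⟩ := hU.ex X hX hr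
  refine ⟨x, hx, ?_⟩
  rw [hU.mem _ (us_card hX hx hr) (Finset.mem_insert_self _ _), h]

theorem IsUpd.le_upd (hD : Metr D) {r : V} (hU : IsUpd D k W W' r) (hW : FW D k W)
    {X : Finset V} (hX : X.card = k) : W X ≤ W' X := by
  by_cases hr : r ∈ X
  · rw [hU.mem X hX hr]
  · obtain ⟨x, hx, h⟩ := hU.ex X hX hr
    have hrx : r ∉ X.erase x := fun h => hr (Finset.mem_of_mem_erase h)
    have hxr : x ≠ r := fun e => hr (e ▸ hx)
    have h1 := hW.lip (insert r (X.erase x)) r x (us_card hX hx hr)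
      (Finset.mem_insert_self _ _) (by
        rw [Finset.mem_insert]
        rintro (h2 | h2)
        · exact hxr h2
        · exact Finset.notMem_erase x X h2)
    rw [Finset.erase_insert hrx, Finset.insert_erase hx, hD.comm r x] at h1
    rw [h]
    exact h1

variable [Fintype V]

theorem IsUpd.TT_mono (hD : Metr D) {r : V} (hU : IsUpd D k W W' r) (hW : FW D k W)
    (hV : k + 1 ≤ Fintype.card V) {Z : Finset V} (hZ : Z.card ≤ k) (p : V) :
    TT D k W Z p ≤ TT D k W' Z p := by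
  obtain ⟨Y, hY, hd, he⟩ := exists_TT (D := D) (W := W') hV hZ p
  have h1 := TT_le (D := D) (W := W) p hY hd
  have h2 : (Y ∪ Z).card = k := by rw [Finset.card_union_of_disjoint hd, hY]
  have h3 := hU.le_upd hD hW h2
  rw [he]
  linarith

theorem IsUpd.dual (hD : Metr D) {r : V} (hU : IsUpd D k W W' r) (hW : FW D k W)
    (hV : k + 1 ≤ Fintype.card V) {B : Finset V} (hB : B.card = k) :
    TT D k W ∅ r + (W' B - W B) ≤ TT D k W' ∅ r := by
  by_cases hr : r ∈ B
  · rw [hU.mem B hB hr, sub_self, add_zero]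
    exact hU.TT_mono hD hW hV (by simp) r
  · obtain ⟨Y, hY, -, he⟩ := exists_TT (D := D) (W := W') hV (Z := ∅) (by simp) r
    rw [Finset.card_empty, add_zero] at hY
    rw [Finset.union_empty] at he
    obtain ⟨Y₀, hrY, hY₀, hval⟩ : ∃ Y₀ : Finset V, r ∉ Y₀ ∧ (insert r Y₀).card = k ∧
        W' Y - ∑ y ∈ Y, D y r = W (insert r Y₀) - ∑ y ∈ Y₀, D y r := by
      by_cases hrY : r ∈ Y
      · refine ⟨Y.erase r, Finset.notMem_erase r Y, ?_, ?_⟩
        · rw [Finset.insert_erase hrY, hY]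
        · rw [Finset.insert_erase hrY, hU.mem Y hY hrY, ← Finset.add_sum_erase _ _ hrY, hD.self,
            zero_add]
      · obtain ⟨y₀, hy₀, h1⟩ := hU.ex Y hY hrY
        refine ⟨Y.erase y₀, fun h => hrY (Finset.mem_of_mem_erase h), us_card hY hy₀ hrY, ?_⟩
        rw [h1, ← Finset.add_sum_erase _ _ hy₀]
        ring
    obtain ⟨v, hvB, hvY, hex⟩ := hW.exch (insert r Y₀) B r hY₀ hB (Finset.mem_insert_self _ _) hr
    rw [Finset.erase_insert hrY] at hex
    have hv0 : v ∉ Y₀ := fun h => hvY (Finset.mem_insert_of_mem h)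
    have hc : (insert v Y₀).card + (∅ : Finset V).card = k := by
      rw [Finset.card_insert_of_notMem hrY] at hY₀
      rw [Finset.card_insert_of_notMem hv0, Finset.card_empty, hY₀]
    have h1 := TT_le (D := D) (W := W) r hc (Finset.disjoint_empty_right _)
    rw [Finset.union_empty, Finset.sum_insert hv0] at h1
    have h2 := hU.le B v hB hr hvB
    rw [he, hval]
    linarith

end Pool.Agent.KServer.NU
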