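import Pool.Agent.Work.MP_fe875b_lc.NU.KeyA
import Pool.Agent.Work.MP_fe875b_lc.NU.KeyB
import Pool.Agent.Work.MP_fe875b_lc.NU.Us
import Pool.Agent.Work.MP_fe875b_lc.NU.Sw

/-! # Module Pot (M): the potential

`Phi` is the minimum of `PhiL` over all lists of `k` different points.
PROOF. The lists with `OK` are finitely many (`List.finite_length_eq`), nonempty (`k ≤ |V|`: a list of the elements of a `k`-set, `Finset.toList`).
`key`: let `l` be a minimiser (`exists_Phi`). If `r ∉ l`: `keyA`. If `l = l₁ ++ r :: l₂` (`List.append_of_mem`): `keyB`.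
`Phi_step`: `t` of `key` for `W'` (`IsUpd.rsup`), `l = t ++ [r]`: `Phi W' = PhiL W' l = W' S + SP TT' t {r} + TT' ∅ r` (`SP_append`)
`≥ W S + SP TT t {r} + TT ∅ r + (W' B - W B)` (`IsUpd.le_upd`, `SP_congr_le` with `c = 0` and `IsUpd.TT_mono`, `IsUpd.dual`) `= PhiL W l + (W' B - W B)`.
`Phi_le`: for a set `X`, `|X| = k`, take `l = X.toList`; for every suffix `TT Z x ≤ W X` (`TT_le` with `Y = X \ Z`, `D ≥ 0`), so `PhiL l ≤ (k + 1) W X`.
`le_Phi`: if `0 ≤ W` everywhere: `TT Z x ≥ - (k - |Z|) (1 + ε)` (`exists_TT`, `D y p ≤ 1 + ε`, also for `y = p`), so `PhiL l ≥ - k * k * (1 + ε)`. -/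

set_option autoImplicit false

namespace Pool.Agent.KServer.NU

open Finset

universe u

variable {V : Type u} [DecidableEq V] [Fintype V] {D : V → V → ℝ} {k : ℕ} {W W' : Finset V → ℝ}

/-- the potential -/
noncomputable def Phi (D : V → V → ℝ) (k : ℕ) (W : Finset V → ℝ) : ℝ :=
  ⨅ l : {l : List V // OK k l}, PhiL D k W l.1

private theorem finite_OK (k : ℕ) : Finite {l : List V // OK k l} := by
  have h : {l : List V | l.length = k}.Finite := List.finite_length_eq V k
  have h2 : {l : List V | OK k l}.Finite := h.subset (fun l hl => hl.2)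
  exact h2.to_subtype

theorem Phi_le_PhiL {l : List V} (hl : OK k l) : Phi D k W ≤ PhiL D k W l := by
  haveI := finite_OK (V := V) k
  exact ciInf_le (f := fun l : {l : List V // OK k l} => PhiL D k W l.1)
    (Set.finite_range _).bddBelow (⟨l, hl⟩ : {l : List V // OK k l})

private theorem OK_toList {X : Finset V} (hX : X.card = k) : OK k X.toList :=
  ⟨X.nodup_toList, by rw [Finset.length_toList, hX]⟩

theorem exists_Phi (hV : k + 1 ≤ Fintype.card V) : ∃ l : List V, OK k l ∧ Phi D k W = PhiL D k W l := by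
  haveI := finite_OK (V := V) k
  haveI : Nonempty {l : List V // OK k l} := by
    obtain ⟨X, -, hX⟩ := Finset.exists_subset_card_eq (s := (Finset.univ : Finset V)) (n := k)
      (by rw [Finset.card_univ]; omega)
    exact ⟨⟨X.toList, OK_toList hX⟩⟩
  obtain ⟨l, hl⟩ := exists_eq_ciInf_of_finite
    (f := fun l : {l : List V // OK k l} => PhiL D k W l.1)
  exact ⟨l.1, l.2, hl.symm⟩

private theorem key {ε : ℝ} (hD : Near D ε) (hε : 0 ≤ ε)
    (hε' : ε * (k * (k + 1) / 2 + 2 * k + 1) ≤ 1 / 3) (hk : 0 < k) (hW : FW D k W) {r : V}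
    (hr : RSup D k W r) (hV : k + 1 ≤ Fintype.card V) :
    ∃ t : List V, OK k (t ++ [r]) ∧ PhiL D k W (t ++ [r]) = Phi D k W := by
  obtain ⟨l, hl, hmin⟩ := exists_Phi (D := D) (W := W) hV
  by_cases hrl : r ∈ l
  · obtain ⟨l₁, l₂, rfl⟩ := List.append_of_mem hrl
    obtain ⟨t, ht, hle⟩ := keyB hD hε hε' hk hW hr hV hl
      (fun l' hl' => by rw [← hmin]; exact Phi_le_PhiL hl')
    rw [← hmin] at hle
    exact ⟨t, ht, le_antisymm hle (Phi_le_PhiL ht)⟩
  · obtain ⟨t, ht, hle⟩ := keyA hD hε hε' hk hW hr hV hl hrl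
    rw [← hmin] at hle
    exact ⟨t, ht, le_antisymm hle (Phi_le_PhiL ht)⟩

theorem Phi_step {ε : ℝ} (hD : Near D ε) (hε : 0 ≤ ε)
    (hε' : ε * (k * (k + 1) / 2 + 2 * k + 1) ≤ 1 / 3) (hk : 0 < k) (hW : FW D k W)
    (hW' : FW D k W') {r : V} (hU : IsUpd D k W W' r) (hV : k + 1 ≤ Fintype.card V)
    {B : Finset V} (hB : B.card = k) : W' B - W B ≤ Phi D k W' - Phi D k W := by
  obtain ⟨t, ht, heq⟩ := key hD hε hε' hk hW' hU.rsup hV
  have hlen : t.length + 1 = k := by
    have h := ht.2
    rw [List.length_append, List.length_singleton] at h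
    exact h
  have hS : (t ++ [r]).toFinset.card = k := by
    rw [List.toFinset_card_of_nodup ht.1]
    exact ht.2
  have h1 : W (t ++ [r]).toFinset ≤ W' (t ++ [r]).toFinset := hU.le_upd hD.metr hW hS
  have h2 : SP (TT D k W) t (([r] : List V).toFinset ∪ ∅) ≤
      SP (TT D k W') t (([r] : List V).toFinset ∪ ∅) + (t.map (fun _ => (0 : ℝ))).sum := by
    apply SP_congr_le
    intro l₁ x l₂ h
    rw [add_zero]
    apply hU.TT_mono hD.metr hW hV
    have h3 : (l₂.toFinset ∪ (([r] : List V).toFinset ∪ ∅)).card ≤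
        l₂.toFinset.card + (([r] : List V).toFinset ∪ ∅).card := Finset.card_union_le _ _
    have h4 : (([r] : List V).toFinset ∪ ∅).card ≤ 1 := by
      rw [Finset.union_empty]
      exact ([r] : List V).toFinset_card_le
    have h5 : l₂.toFinset.card ≤ l₂.length := l₂.toFinset_card_le
    have h6 : t.length = l₁.length + (l₂.length + 1) := by
      rw [h, List.length_append, List.length_cons]
    omega
  have h7 : (t.map (fun _ => (0 : ℝ))).sum = 0 := by
    rw [List.map_const', List.sum_replicate, smul_zero]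
  have h8 := hU.dual hD.metr hW hV hB
  have hexp : ∀ w : Finset V → ℝ, PhiL D k w (t ++ [r]) = w (t ++ [r]).toFinset +
      (SP (TT D k w) t (([r] : List V).toFinset ∪ ∅) + TT D k w ∅ r) := by
    intro w
    unfold PhiL
    rw [SP_append]
    congr 2
    show TT D k w (([] : List V).toFinset ∪ ∅) r + 0 = TT D k w ∅ r
    rw [List.toFinset_nil, Finset.union_empty, add_zero]
  have h9 := Phi_le_PhiL (D := D) (W := W) ht
  rw [hexp W] at h9
  rw [hexp W'] at heq
  linarith

private theorem SP_zero (l : List V) (C : Finset V) : SP (fun _ _ => (0 : ℝ)) l C = 0 := by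
  induction l with
  | nil => rfl
  | cons x l ih =>
    show (0 : ℝ) + SP (fun _ _ => (0 : ℝ)) l C = 0
    rw [ih, add_zero]

theorem Phi_le (hD : Metr D) {X : Finset V} (hX : X.card = k) :
    Phi D k W ≤ (k + 1) * W X := by
  have hl := OK_toList hX
  have h1 := Phi_le_PhiL (D := D) (W := W) hl
  have h2 : SP (TT D k W) X.toList ∅ ≤
      SP (fun _ _ => (0 : ℝ)) X.toList ∅ + (X.toList.map (fun _ => W X)).sum := by
    apply SP_congr_le
    intro l₁ x l₂ h
    rw [zero_add, Finset.union_empty]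
    have hsub : l₂.toFinset ⊆ X := by
      intro y hy
      rw [List.mem_toFinset] at hy
      have : y ∈ X.toList := by
        rw [h]
        exact List.mem_append_right _ (List.mem_cons_of_mem _ hy)
      exact Finset.mem_toList.1 this
    have h3 := TT_le (D := D) (W := W) (Z := l₂.toFinset) (Y := X \ l₂.toFinset) (k := k) x
      (by rw [Finset.card_sdiff_add_card_eq_card hsub, hX]) Finset.sdiff_disjoint
    rw [Finset.sdiff_union_of_subset hsub] at h3
    have h4 : 0 ≤ ∑ y ∈ X \ l₂.toFinset, D y x := Finset.sum_nonneg fun y _ => hD.nonneg y x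
    linarith
  rw [SP_zero, zero_add, List.map_const', List.sum_replicate, Finset.length_toList, hX,
    nsmul_eq_mul] at h2
  have h5 : PhiL D k W X.toList = W X + SP (TT D k W) X.toList ∅ := by
    unfold PhiL
    rw [Finset.toList_toFinset]
  rw [h5] at h1
  linarith

theorem le_Phi {ε : ℝ} (hD : Near D ε) (hε : 0 ≤ ε) (hV : k + 1 ≤ Fintype.card V)
    (h0 : ∀ X : Finset V, 0 ≤ W X) : -(k * k * (1 + ε)) ≤ Phi D k W := by
  obtain ⟨l, hl, hmin⟩ := exists_Phi (D := D) (W := W) hV
  have h2 : SP (fun _ _ => (0 : ℝ)) l ∅ ≤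
      SP (TT D k W) l ∅ + (l.map (fun _ => (k : ℝ) * (1 + ε))).sum := by
    apply SP_congr_le
    intro l₁ x l₂ h
    rw [Finset.union_empty]
    have hc : l₂.toFinset.card ≤ k := by
      have h5 : l₂.toFinset.card ≤ l₂.length := l₂.toFinset_card_le
      have h6 : l.length = l₁.length + (l₂.length + 1) := by
        rw [h, List.length_append, List.length_cons]
      have h7 := hl.2
      omega
    obtain ⟨Y, hY, -, hTT⟩ := exists_TT (D := D) (W := W) hV hc x
    rw [hTT]
    have h8 : ∑ y ∈ Y, D y x ≤ ∑ y ∈ Y, (1 + ε) := by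
      apply Finset.sum_le_sum
      intro y _
      by_cases hyx : y = x
      · rw [hyx, hD.metr.self]
        linarith
      · exact hD.hi y x hyx
    rw [Finset.sum_const, nsmul_eq_mul] at h8
    have h9 : (Y.card : ℝ) ≤ k := by
      exact_mod_cast (by omega : Y.card ≤ k)
    have h10 : (Y.card : ℝ) * (1 + ε) ≤ k * (1 + ε) :=
      mul_le_mul_of_nonneg_right h9 (by linarith)
    have h11 := h0 (Y ∪ l₂.toFinset)
    linarith
  rw [SP_zero, List.map_const', List.sum_replicate, hl.2, nsmul_eq_mul] at h2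
  have h5 := h0 l.toFinset
  rw [hmin]
  unfold PhiL
  nlinarith

end Pool.Agent.KServer.NU
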