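import Pool.Agent.Work.MP_fe875b_lc.NU.U0

/-! # Module Sp (M): sums over lists, comparison of `PhiL` and `PL`

PROOF. `SP_append`: induction on `l₁`. `SP_congr_le`: induction on `l` (split `l = [] ++ x :: l'` for the head; for the tail use splits `x :: l₁`).
`PhiL_bounds`: show by induction on a list `l` without repetitions of length `m ≤ k`:
`SP aa l ∅ - (1 + ε) s ≤ SP TT l ∅ ≤ SP aa l ∅ - s`, `s = m k - m (m - 1) / 2`: for `x :: l` use `TT_le_aa`, `aa_le_TT` for `Z = l.toFinset`
(`|Z| = l.length`, `i = k - l.length`). For `m = k` it is `s = k (k + 1) / 2`. -/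

set_option autoImplicit false

namespace Pool.Agent.KServer.NU

open Finset

universe u

variable {V : Type u} [DecidableEq V]

theorem SP_append (f : Finset V → V → ℝ) (l₁ l₂ : List V) (C : Finset V) :
    SP f (l₁ ++ l₂) C = SP f l₁ (l₂.toFinset ∪ C) + SP f l₂ C := by
  induction l₁ with
  | nil => simp only [List.nil_append, SP, zero_add]
  | cons x l ih =>
    simp only [List.cons_append, SP]
    rw [ih, List.toFinset_append, Finset.union_assoc, add_assoc]

theorem SP_congr_le {f g : Finset V → V → ℝ} {l : List V} {C C' : Finset V} {c : V → ℝ}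
    (h : ∀ (l₁ : List V) (x : V) (l₂ : List V), l = l₁ ++ x :: l₂ →
      f (l₂.toFinset ∪ C) x ≤ g (l₂.toFinset ∪ C') x + c x) :
    SP f l C ≤ SP g l C' + (l.map c).sum := by
  induction l with
  | nil => simp only [SP, List.map_nil, List.sum_nil, add_zero, le_refl]
  | cons x l ih =>
    have h1 := h [] x l rfl
    have h2 := ih fun l₁ y l₂ he => h (x :: l₁) y l₂ (by rw [he, List.cons_append])
    simp only [SP, List.map_cons, List.sum_cons]
    linarith

variable [Fintype V] {D : V → V → ℝ} {k : ℕ} {W : Finset V → ℝ}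

private theorem bounds_aux {ε : ℝ} (hD : Near D ε) (hε : 0 ≤ ε) (hW : FW D k W)
    (hV : k + 1 ≤ Fintype.card V) : ∀ l : List V, l.Nodup → l.length ≤ k →
    SP (aa k W) l ∅ - (1 + ε) * (l.length * k - l.length * (l.length - 1) / 2) ≤
        SP (TT D k W) l ∅ ∧
      SP (TT D k W) l ∅ ≤ SP (aa k W) l ∅ - (l.length * k - l.length * (l.length - 1) / 2) := by
  intro l
  induction l with
  | nil =>
    intro _ _
    simp [SP]
  | cons x l ih =>
    intro hn hl
    rw [List.nodup_cons] at hn
    rw [List.length_cons] at hl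
    obtain ⟨h1, h2⟩ := ih hn.2 (by omega)
    have hx : x ∉ l.toFinset ∪ ∅ := by
      rw [Finset.union_empty, List.mem_toFinset]
      exact hn.1
    have hZ : (l.toFinset ∪ ∅).card + (k - l.length) = k := by
      rw [Finset.union_empty, List.toFinset_card_of_nodup hn.2]
      omega
    have h3 := TT_le_aa (W := W) hD hV hZ hx
    have h4 := aa_le_TT hD hε hW hV hZ hx
    have hc : ((k - l.length : ℕ) : ℝ) = k - l.length := by
      rw [Nat.cast_sub (by omega)]
    rw [hc] at h3 h4
    simp only [SP, List.length_cons, Nat.cast_add, Nat.cast_one]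
    constructor <;> nlinarith

theorem PhiL_bounds {ε : ℝ} (hD : Near D ε) (hε : 0 ≤ ε) (hW : FW D k W)
    (hV : k + 1 ≤ Fintype.card V) {l : List V} (hl : OK k l) :
    PL k W l - (1 + ε) * (k * (k + 1) / 2) ≤ PhiL D k W l ∧
      PhiL D k W l ≤ PL k W l - k * (k + 1) / 2 := by
  obtain ⟨h1, h2⟩ := bounds_aux hD hε hW hV l hl.1 hl.2.le
  rw [hl.2] at h1 h2
  have h3 : (k * k - k * (k - 1) / 2 : ℝ) = k * (k + 1) / 2 := by ring
  rw [h3] at h1 h2
  unfold PL PhiL
  constructor <;> linarith

end Pool.Agent.KServer.NU
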