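import Pool.Agent.Work.MP_fe875b_lc.NU.Defs

/-! # Module Tx (M): the minima `TT`, `aa`, `mu` are attained

PROOF. The index types are finite (subtypes of `Finset V`), so `ciInf_le (Set.finite_range _).bddBelow` and
`exists_eq_ciInf_of_finite` (needs `Nonempty`). Existence: `Finset.exists_subset_card_eq` (or
`Finset.exists_subsuperset_card_eq`) in the complement of `Z` (for `aa`: between `Z` and `univ.erase p`,
which has at least `k` elements). `aa_mono`: the minimising set for `Z'` contains `Z`. `aa_full`: `Z ⊆ X`, same cardinality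
(`Finset.eq_of_subset_of_card_le`). `TT_full`: `Y.card = 0`. -/

set_option autoImplicit false

namespace Pool.Agent.KServer.NU

open Finset

universe u

variable {V : Type u} [DecidableEq V] [Fintype V] {D : V → V → ℝ} {k : ℕ} {W : Finset V → ℝ}

theorem TT_le {Z Y : Finset V} (p : V) (h : Y.card + Z.card = k) (hd : Disjoint Y Z) :
    TT D k W Z p ≤ W (Y ∪ Z) - ∑ y ∈ Y, D y p :=
  ciInf_le (f := fun Y : {Y : Finset V // Y.card + Z.card = k ∧ Disjoint Y Z} =>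
    (W (Y.1 ∪ Z) - ∑ y ∈ Y.1, D y p)) (Set.finite_range _).bddBelow ⟨Y, h, hd⟩

private theorem ex_compl (hV : k + 1 ≤ Fintype.card V) {Z : Finset V} (hZ : Z.card ≤ k) :
    ∃ Y : Finset V, Y.card + Z.card = k ∧ Disjoint Y Z := by
  have h1 : k - Z.card ≤ (Finset.univ \ Z).card := by
    rw [Finset.card_sdiff_of_subset (Finset.subset_univ _), Finset.card_univ]
    omega
  obtain ⟨Y, hY, hc⟩ := Finset.exists_subset_card_eq h1
  refine ⟨Y, by omega, ?_⟩
  rw [Finset.disjoint_left]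
  intro x hx hxZ
  exact (Finset.mem_sdiff.1 (hY hx)).2 hxZ

theorem exists_TT (hV : k + 1 ≤ Fintype.card V) {Z : Finset V} (hZ : Z.card ≤ k) (p : V) :
    ∃ Y : Finset V, Y.card + Z.card = k ∧ Disjoint Y Z ∧
      TT D k W Z p = W (Y ∪ Z) - ∑ y ∈ Y, D y p := by
  obtain ⟨Y₀, h1, h2⟩ := ex_compl hV hZ
  haveI : Nonempty {Y : Finset V // Y.card + Z.card = k ∧ Disjoint Y Z} := ⟨⟨Y₀, h1, h2⟩⟩
  obtain ⟨Y, hY⟩ := exists_eq_ciInf_of_finite
    (f := fun Y : {Y : Finset V // Y.card + Z.card = k ∧ Disjoint Y Z} =>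
      (W (Y.1 ∪ Z) - ∑ y ∈ Y.1, D y p))
  exact ⟨Y.1, Y.2.1, Y.2.2, hY.symm⟩

theorem aa_le {Z X : Finset V} {p : V} (h : X.card = k) (hZ : Z ⊆ X) (hp : p ∉ X) :
    aa k W Z p ≤ W X :=
  ciInf_le (f := fun X : {X : Finset V // X.card = k ∧ Z ⊆ X ∧ p ∉ X} => W X.1)
    (Set.finite_range _).bddBelow ⟨X, h, hZ, hp⟩

theorem exists_aa (hV : k + 1 ≤ Fintype.card V) {Z : Finset V} (hZ : Z.card ≤ k) {p : V}
    (hp : p ∉ Z) : ∃ X : Finset V, X.card = k ∧ Z ⊆ X ∧ p ∉ X ∧ aa k W Z p = W X := by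
  have h0 : Z ⊆ Finset.univ.erase p := by
    intro x hx
    rw [Finset.mem_erase]
    exact ⟨fun h => hp (h ▸ hx), Finset.mem_univ _⟩
  have h1 : k ≤ (Finset.univ.erase p : Finset V).card := by
    rw [Finset.card_erase_of_mem (Finset.mem_univ _), Finset.card_univ]
    omega
  obtain ⟨X₀, h2, h3, h4⟩ := Finset.exists_subsuperset_card_eq h0 hZ h1
  haveI : Nonempty {X : Finset V // X.card = k ∧ Z ⊆ X ∧ p ∉ X} :=
    ⟨⟨X₀, h4, h2, fun h => (Finset.mem_erase.1 (h3 h)).1 rfl⟩⟩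
  obtain ⟨X, hX⟩ := exists_eq_ciInf_of_finite
    (f := fun X : {X : Finset V // X.card = k ∧ Z ⊆ X ∧ p ∉ X} => W X.1)
  exact ⟨X.1, X.2.1, X.2.2.1, X.2.2.2, hX.symm⟩

theorem mu_le {X : Finset V} (h : X.card = k) : mu k W ≤ W X :=
  ciInf_le (f := fun X : {X : Finset V // X.card = k} => W X.1)
    (Set.finite_range _).bddBelow ⟨X, h⟩

theorem exists_mu (hV : k + 1 ≤ Fintype.card V) : ∃ X : Finset V, X.card = k ∧ mu k W = W X := by
  obtain ⟨X₀, h1, _⟩ := ex_compl (V := V) hV (Z := ∅) (by simp)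
  haveI : Nonempty {X : Finset V // X.card = k} := ⟨⟨X₀, by simpa using h1⟩⟩
  obtain ⟨X, hX⟩ := exists_eq_ciInf_of_finite (f := fun X : {X : Finset V // X.card = k} => W X.1)
  exact ⟨X.1, X.2, hX.symm⟩

theorem mu_le_aa (hV : k + 1 ≤ Fintype.card V) {Z : Finset V} (hZ : Z.card ≤ k) {p : V}
    (hp : p ∉ Z) : mu k W ≤ aa k W Z p := by
  obtain ⟨X, h1, _, _, h4⟩ := exists_aa (W := W) hV hZ hp
  rw [h4]
  exact mu_le h1

theorem aa_mono (hV : k + 1 ≤ Fintype.card V) {Z Z' : Finset V} (h : Z ⊆ Z') (hZ : Z'.card ≤ k)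
    {p : V} (hp : p ∉ Z') : aa k W Z p ≤ aa k W Z' p := by
  obtain ⟨X, h1, h2, h3, h4⟩ := exists_aa (W := W) hV hZ hp
  rw [h4]
  exact aa_le h1 (h.trans h2) h3

theorem aa_full {Z : Finset V} (hZ : Z.card = k) {p : V} (hp : p ∉ Z) : aa k W Z p = W Z := by
  apply le_antisymm (aa_le hZ (Finset.Subset.refl _) hp)
  haveI : Nonempty {X : Finset V // X.card = k ∧ Z ⊆ X ∧ p ∉ X} :=
    ⟨⟨Z, hZ, Finset.Subset.refl _, hp⟩⟩
  refine le_ciInf (f := fun X : {X : Finset V // X.card = k ∧ Z ⊆ X ∧ p ∉ X} => W X.1) fun X => ?_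
  have : Z = X.1 := Finset.eq_of_subset_of_card_le X.2.2.1 (by rw [X.2.1, hZ])
  rw [← this]

theorem TT_full {Z : Finset V} (hZ : Z.card = k) (p : V) : TT D k W Z p = W Z := by
  have h1 : TT D k W Z p ≤ W (∅ ∪ Z) - ∑ y ∈ (∅ : Finset V), D y p :=
    TT_le p (by simpa using hZ) (Finset.disjoint_empty_left _)
  rw [Finset.empty_union, Finset.sum_empty, sub_zero] at h1
  apply le_antisymm h1
  haveI : Nonempty {Y : Finset V // Y.card + Z.card = k ∧ Disjoint Y Z} :=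
    ⟨⟨∅, by simpa using hZ, Finset.disjoint_empty_left _⟩⟩
  refine le_ciInf (f := fun Y : {Y : Finset V // Y.card + Z.card = k ∧ Disjoint Y Z} =>
    (W (Y.1 ∪ Z) - ∑ y ∈ Y.1, D y p)) fun Y => ?_
  have h2 : Y.1 = ∅ := by
    rw [← Finset.card_eq_zero]
    have := Y.2.1
    omega
  rw [h2, Finset.empty_union, Finset.sum_empty, sub_zero]

end Pool.Agent.KServer.NU
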