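import Pool.Agent.Work.MP_fe875b_lc.NU.Tx

/-! # Module U0 (M): `TT` is `aa` minus the number of antipodes, up to `ε`

PROOF. `i = k - |Z|`. `TT_le_aa`: let `X` be the set of `exists_aa`, `Y = X \ Z`; `p ∉ Y`, so `D y p ≥ 1` for the `i` elements
of `Y`, `TT_le` (`Y ∪ Z = X`). `aa_le_TT`: let `Y` be the set of `exists_TT`, `X = Y ∪ Z`, `|X| = k`. If `p ∉ Y`: `aa_le` for `X` and
`∑ D y p ≤ i (1 + ε)`. If `p ∈ Y`: there is `v ∉ X` (`k < |V|`); `X' = insert v (X.erase p)` contains `Z` (`p ∉ Z`), not `p`, and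
`W X' ≤ W X + D p v ≤ W X + 1 + ε` (`lip`); `∑_{y ∈ Y} D y p ≤ (i - 1) (1 + ε)` as `D p p = 0`. -/

set_option autoImplicit false

namespace Pool.Agent.KServer.NU

open Finset

universe u

variable {V : Type u} [DecidableEq V] [Fintype V] {D : V → V → ℝ} {k : ℕ} {W : Finset V → ℝ}

theorem TT_le_aa {ε : ℝ} (hD : Near D ε) (hV : k + 1 ≤ Fintype.card V) {Z : Finset V} {i : ℕ}
    (hZ : Z.card + i = k) {p : V} (hp : p ∉ Z) : TT D k W Z p ≤ aa k W Z p - i := by
  obtain ⟨X, h1, h2, h3, h4⟩ := exists_aa (W := W) hV (Z := Z) (by omega) hp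
  have hc : (X \ Z).card = i := by
    rw [Finset.card_sdiff_of_subset h2, h1]
    omega
  have h5 := TT_le (D := D) (k := k) (W := W) (Z := Z) (Y := X \ Z) p (by omega)
    Finset.sdiff_disjoint
  rw [Finset.sdiff_union_of_subset h2] at h5
  have h6 : (i : ℝ) ≤ ∑ y ∈ X \ Z, D y p := by
    have h7 : ∑ y ∈ X \ Z, (1 : ℝ) ≤ ∑ y ∈ X \ Z, D y p := by
      refine Finset.sum_le_sum fun y hy => hD.lo y p ?_
      rintro rfl
      exact h3 (Finset.mem_sdiff.1 hy).1
    rw [Finset.sum_const, nsmul_eq_mul, mul_one, hc] at h7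
    exact h7
  rw [h4]
  linarith

theorem aa_le_TT {ε : ℝ} (hD : Near D ε) (hε : 0 ≤ ε) (hW : FW D k W)
    (hV : k + 1 ≤ Fintype.card V) {Z : Finset V} {i : ℕ} (hZ : Z.card + i = k) {p : V}
    (hp : p ∉ Z) : aa k W Z p - i * (1 + ε) ≤ TT D k W Z p := by
  obtain ⟨Y, h1, h2, h3⟩ := exists_TT (D := D) (W := W) hV (Z := Z) (by omega) p
  have hYc : Y.card = i := by omega
  have hXc : (Y ∪ Z).card = k := by
    rw [Finset.card_union_of_disjoint h2, h1]
  rw [h3]
  by_cases hpY : p ∈ Y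
  · have hpX : p ∈ Y ∪ Z := Finset.mem_union_left _ hpY
    obtain ⟨v, hv⟩ : ∃ v, v ∉ Y ∪ Z := by
      by_contra hcon
      push_neg at hcon
      have h4 : Y ∪ Z = Finset.univ := Finset.eq_univ_of_forall hcon
      rw [h4, Finset.card_univ] at hXc
      omega
    have hvp : v ≠ p := by
      rintro rfl
      exact hv hpX
    have hve : v ∉ (Y ∪ Z).erase p := fun h => hv (Finset.mem_of_mem_erase h)
    have h5 : (insert v ((Y ∪ Z).erase p)).card = k := by
      rw [Finset.card_insert_of_notMem hve, Finset.card_erase_of_mem hpX, hXc]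
      have : 0 < (Y ∪ Z).card := Finset.card_pos.2 ⟨p, hpX⟩
      omega
    have h6 : aa k W Z p ≤ W (insert v ((Y ∪ Z).erase p)) := by
      refine aa_le h5 ?_ ?_
      · intro z hz
        rw [Finset.mem_insert, Finset.mem_erase]
        exact Or.inr ⟨fun h => hp (h ▸ hz), Finset.mem_union_right _ hz⟩
      · rw [Finset.mem_insert, not_or]
        exact ⟨fun h => hvp h.symm, Finset.notMem_erase _ _⟩
    have h7 := hW.lip (Y ∪ Z) p v hXc hpX hv
    have h8 := hD.hi p v (fun h => hvp h.symm)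
    have h9 : ∑ y ∈ Y, D y p ≤ ((i : ℝ) - 1) * (1 + ε) := by
      rw [← Finset.add_sum_erase Y (fun y => D y p) hpY, hD.metr.self, zero_add]
      have h10 : ∑ y ∈ Y.erase p, D y p ≤ ∑ y ∈ Y.erase p, (1 + ε) :=
        Finset.sum_le_sum fun y hy => hD.hi y p (Finset.ne_of_mem_erase hy)
      rw [Finset.sum_const, nsmul_eq_mul, Finset.card_erase_of_mem hpY, hYc] at h10
      have h11 : 0 < Y.card := Finset.card_pos.2 ⟨p, hpY⟩
      rw [Nat.cast_sub (by omega), Nat.cast_one] at h10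
      exact h10
    have h12 : ((i : ℝ) - 1) * (1 + ε) = i * (1 + ε) - (1 + ε) := by ring
    linarith
  · have h4 : aa k W Z p ≤ W (Y ∪ Z) := by
      refine aa_le hXc Finset.subset_union_right ?_
      rw [Finset.mem_union, not_or]
      exact ⟨hpY, hp⟩
    have h5 : ∑ y ∈ Y, D y p ≤ (i : ℝ) * (1 + ε) := by
      have h10 : ∑ y ∈ Y, D y p ≤ ∑ y ∈ Y, (1 + ε) := by
        refine Finset.sum_le_sum fun y hy => hD.hi y p ?_
        rintro rfl
        exact hpY hy
      rw [Finset.sum_const, nsmul_eq_mul, hYc] at h10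
      exact h10
    linarith

end Pool.Agent.KServer.NU
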